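import Mathlib

set_option autoImplicit false

open scoped InnerProductSpace
open Filter Topology

namespace Pool.Agent.Lib.Helper29.PiBasis

section Abstract

variable {𝕜 : Type*} [RCLike 𝕜] {H : Type*} [NormedAddCommGroup H] [InnerProductSpace 𝕜 H]

/-- The renorming function: maximum of `r‖x‖` and the supremum of `‖⟪g, x⟫‖` over `g ∈ G`. -/
noncomputable def nrm (𝕜 : Type*) [RCLike 𝕜] {H : Type*} [NormedAddCommGroup H]
    [InnerProductSpace 𝕜 H] (r : ℝ) (G : Set H) (x : H) : ℝ :=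
  max (r * ‖x‖) (⨆ g : G, ‖inner 𝕜 (g : H) x‖)

variable {r C : ℝ} {G : Set H}

lemma bdd (hG : ∀ g ∈ G, ‖g‖ ≤ C) (x : H) :
    BddAbove (Set.range fun g : G => ‖inner 𝕜 (g : H) x‖) := by
  refine ⟨C * ‖x‖, ?_⟩
  rintro _ ⟨g, rfl⟩
  exact (norm_inner_le_norm _ _).trans
    (mul_le_mul_of_nonneg_right (hG g g.2) (norm_nonneg _))

lemma inner_le_nrm (hG : ∀ g ∈ G, ‖g‖ ≤ C) {g : H} (hg : g ∈ G) (x : H) :
    ‖inner 𝕜 g x‖ ≤ nrm 𝕜 r G x :=
  (le_ciSup (bdd (𝕜 := 𝕜) hG x) ⟨g, hg⟩).trans (le_max_right _ _)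

lemma r_le_nrm (x : H) : r * ‖x‖ ≤ nrm 𝕜 r G x := le_max_left _ _

lemma nrm_le {x : H} {a : ℝ} (ha : 0 ≤ a) (h1 : r * ‖x‖ ≤ a)
    (h2 : ∀ g ∈ G, ‖inner 𝕜 g x‖ ≤ a) : nrm 𝕜 r G x ≤ a :=
  max_le h1 (Real.iSup_le (fun g => h2 g g.2) ha)

lemma nrm_nonneg (hr : 0 ≤ r) (x : H) : 0 ≤ nrm 𝕜 r G x :=
  (mul_nonneg hr (norm_nonneg x)).trans (r_le_nrm x)

lemma nrm_le_mul (hr : 0 ≤ r) (hrC : r ≤ C) (hG : ∀ g ∈ G, ‖g‖ ≤ C) (x : H) :
    nrm 𝕜 r G x ≤ C * ‖x‖ := by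
  refine nrm_le (mul_nonneg (hr.trans hrC) (norm_nonneg _))
    (mul_le_mul_of_nonneg_right hrC (norm_nonneg _)) fun g hg => ?_
  exact (norm_inner_le_norm _ _).trans (mul_le_mul_of_nonneg_right (hG g hg) (norm_nonneg _))

lemma nrm_add (hr : 0 ≤ r) (hG : ∀ g ∈ G, ‖g‖ ≤ C) (x y : H) :
    nrm 𝕜 r G (x + y) ≤ nrm 𝕜 r G x + nrm 𝕜 r G y := by
  refine nrm_le (add_nonneg (nrm_nonneg hr x) (nrm_nonneg hr y)) ?_ fun g hg => ?_
  · calc r * ‖x + y‖ ≤ r * (‖x‖ + ‖y‖) := mul_le_mul_of_nonneg_left (norm_add_le _ _) hr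
      _ = r * ‖x‖ + r * ‖y‖ := by ring
      _ ≤ _ := add_le_add (r_le_nrm x) (r_le_nrm y)
  · rw [inner_add_right]
    exact (norm_add_le _ _).trans (add_le_add (inner_le_nrm hG hg x) (inner_le_nrm hG hg y))

lemma nrm_zero (hr : 0 ≤ r) : nrm 𝕜 r G (0 : H) = 0 :=
  le_antisymm (nrm_le le_rfl (by simp) (by simp)) (nrm_nonneg hr _)

lemma nrm_smul_le (hr : 0 ≤ r) (hG : ∀ g ∈ G, ‖g‖ ≤ C) (c : 𝕜) (x : H) :
    nrm 𝕜 r G (c • x) ≤ ‖c‖ * nrm 𝕜 r G x := by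
  refine nrm_le (mul_nonneg (norm_nonneg _) (nrm_nonneg hr x)) ?_ fun g hg => ?_
  · rw [norm_smul]
    calc r * (‖c‖ * ‖x‖) = ‖c‖ * (r * ‖x‖) := by ring
      _ ≤ _ := mul_le_mul_of_nonneg_left (r_le_nrm x) (norm_nonneg _)
  · rw [inner_smul_right, norm_mul]
    exact mul_le_mul_of_nonneg_left (inner_le_nrm hG hg x) (norm_nonneg _)

lemma nrm_neg (hr : 0 ≤ r) (hG : ∀ g ∈ G, ‖g‖ ≤ C) (x : H) :
    nrm 𝕜 r G (-x) = nrm 𝕜 r G x := by
  apply le_antisymm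
  · simpa using nrm_smul_le (𝕜 := 𝕜) hr hG (-1 : 𝕜) x
  · simpa using nrm_smul_le (𝕜 := 𝕜) hr hG (-1 : 𝕜) (-x)

/-- Orthogonality: a contractive linear idempotent whose range meets the interior of the region
where the new norm is `r‖·‖` is symmetric. -/
lemma symm_of_contractive (hr : 0 < r) {V : H →ₗ[𝕜] H} (hV : ∀ x, V (V x) = V x)
    (hN : ∀ x, nrm 𝕜 r G (V x) ≤ nrm 𝕜 r G x) {x₁ : H} (hx₁ : V x₁ = x₁) {ε : ℝ} (hε : 0 < ε)
    (hloc : ∀ x, ‖x - x₁‖ < ε → ∀ g ∈ G, ‖inner 𝕜 g x‖ ≤ r * ‖x‖) :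
    ∀ x y, inner 𝕜 (V x) y = inner 𝕜 x (V y) := by
  -- first: for `x` fixed by `V` in the open region, `⟪x, V y⟫ = ⟪x, y⟫`
  have key : ∀ x, V x = x → ‖x - x₁‖ < ε → ∀ y, inner 𝕜 x (V y) = inner 𝕜 x y := by
    intro x hx hxε
    have hre : ∀ y, RCLike.re (inner 𝕜 x (V y)) = RCLike.re (inner 𝕜 x y) := by
      intro y
      -- for all small real `t`: `‖x + t V y‖ ≤ ‖x + t y‖`
      set δ := ε - ‖x - x₁‖ with hδ
      have hδpos : 0 < δ := by linarith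
      have hsmall : ∀ t : ℝ, |t| * ‖y‖ < δ →
          ‖x + (t : 𝕜) • V y‖ ^ 2 ≤ ‖x + (t : 𝕜) • y‖ ^ 2 := by
        intro t ht
        have h1 : nrm 𝕜 r G (x + (t : 𝕜) • y) ≤ r * ‖x + (t : 𝕜) • y‖ := by
          refine nrm_le (mul_nonneg hr.le (norm_nonneg _)) le_rfl (hloc _ ?_)
          calc ‖x + (t : 𝕜) • y - x₁‖ = ‖(x - x₁) + (t : 𝕜) • y‖ := by congr 1; abel
            _ ≤ ‖x - x₁‖ + ‖(t : 𝕜) • y‖ := norm_add_le _ _
            _ = ‖x - x₁‖ + |t| * ‖y‖ := by rw [norm_smul, RCLike.norm_ofReal]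
            _ < ε := by linarith
        have h2 := hN (x + (t : 𝕜) • y)
        rw [map_add, map_smul, hx] at h2
        have h3 := (r_le_nrm (𝕜 := 𝕜) (r := r) (G := G) (x + (t : 𝕜) • V y)).trans (h2.trans h1)
        have h4 : ‖x + (t : 𝕜) • V y‖ ≤ ‖x + (t : 𝕜) • y‖ := le_of_mul_le_mul_left h3 hr
        exact pow_le_pow_left₀ (norm_nonneg _) h4 2
      have hexp : ∀ (t : ℝ) (z : H), ‖x + (t : 𝕜) • z‖ ^ 2 =
          ‖x‖ ^ 2 + 2 * t * RCLike.re (inner 𝕜 x z) + t ^ 2 * ‖z‖ ^ 2 := by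
        intro t z
        rw [@norm_add_sq 𝕜, inner_smul_right, norm_smul, RCLike.norm_ofReal, mul_pow, sq_abs,
          RCLike.re_ofReal_mul]
        ring
      by_contra hne
      set D := RCLike.re (inner 𝕜 x (V y)) - RCLike.re (inner 𝕜 x y) with hD
      have hD0 : D ≠ 0 := sub_ne_zero.mpr hne
      -- `2 t D ≤ t² ‖y‖²` for small t
      have hineq : ∀ t : ℝ, |t| * ‖y‖ < δ → 2 * t * D ≤ t ^ 2 * ‖y‖ ^ 2 := by
        intro t ht
        have := hsmall t ht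
        rw [hexp, hexp] at this
        have h0 : 0 ≤ t ^ 2 * ‖V y‖ ^ 2 := by positivity
        rw [hD]; nlinarith
      -- choose t = s * D with s small positive
      obtain ⟨s, hs, hs1, hs2⟩ : ∃ s : ℝ, 0 < s ∧ s * |D| * ‖y‖ < δ ∧ s * ‖y‖ ^ 2 < 2 := by
        have ha : 0 < |D| * ‖y‖ + 1 := by positivity
        have hb : 0 < ‖y‖ ^ 2 + 1 := by positivity
        refine ⟨min (δ / (|D| * ‖y‖ + 1)) (1 / (‖y‖ ^ 2 + 1)), by positivity, ?_, ?_⟩
        · calc min (δ / (|D| * ‖y‖ + 1)) (1 / (‖y‖ ^ 2 + 1)) * |D| * ‖y‖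
              ≤ (δ / (|D| * ‖y‖ + 1)) * |D| * ‖y‖ := by
                gcongr; exact min_le_left _ _
            _ = δ * ((|D| * ‖y‖) / (|D| * ‖y‖ + 1)) := by ring
            _ < δ * 1 := by
                apply mul_lt_mul_of_pos_left _ hδpos
                rw [div_lt_one ha]; linarith
            _ = δ := mul_one _
        · calc min (δ / (|D| * ‖y‖ + 1)) (1 / (‖y‖ ^ 2 + 1)) * ‖y‖ ^ 2
              ≤ (1 / (‖y‖ ^ 2 + 1)) * ‖y‖ ^ 2 := by gcongr; exact min_le_right _ _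
            _ = ‖y‖ ^ 2 / (‖y‖ ^ 2 + 1) := by ring
            _ < 2 := by rw [div_lt_iff₀ hb]; nlinarith [sq_nonneg ‖y‖]
      have h5 := hineq (s * D) (by rw [abs_mul, abs_of_pos hs]; exact hs1)
      have h6 : 0 < s * D ^ 2 := by positivity
      nlinarith
    intro y
    apply RCLike.ext (hre y)
    have h7 := hre ((RCLike.I : 𝕜) • y)
    rw [map_smul, inner_smul_right, inner_smul_right] at h7
    simp only [RCLike.mul_re, RCLike.I_re, zero_mul, zero_sub] at h7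
    rcases RCLike.I_mul_I_ax (K := 𝕜) with hI | hI
    · -- real case
      have him : ∀ z : 𝕜, RCLike.im z = 0 := by
        intro z
        have := RCLike.mul_im_I_ax z
        rw [hI] at this
        simpa using this.symm
      rw [him, him]
    · have hIim : (RCLike.im (RCLike.I : 𝕜)) ^ 2 = 1 := by
        have h8 := congrArg RCLike.re hI
        simp only [RCLike.mul_re, RCLike.I_re, zero_mul, zero_sub, map_neg, RCLike.one_re] at h8
        nlinarith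
      have hne : RCLike.im (RCLike.I : 𝕜) ≠ 0 := by
        intro h; rw [h] at hIim; norm_num at hIim
      have := neg_injective h7
      exact mul_left_cancel₀ hne this
  -- extend to all of the range
  have key2 : ∀ x, V x = x → ∀ y, inner 𝕜 x (V y) = inner 𝕜 x y := by
    intro x hx y
    obtain ⟨t, ht, ht1⟩ : ∃ t : ℝ, 0 < t ∧ t * ‖x‖ < ε := by
      have ha : 0 < ‖x‖ + 1 := by positivity
      refine ⟨ε / (‖x‖ + 1), by positivity, ?_⟩
      calc ε / (‖x‖ + 1) * ‖x‖ = ε * (‖x‖ / (‖x‖ + 1)) := by ring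
        _ < ε * 1 := by
            apply mul_lt_mul_of_pos_left _ hε
            rw [div_lt_one ha]; linarith
        _ = ε := mul_one _
    have h1 := key x₁ hx₁ (by simpa using hε) y
    have h2 := key (x₁ + (t : 𝕜) • x) (by rw [map_add, map_smul, hx₁, hx]) (by
      rw [add_sub_cancel_left, norm_smul, RCLike.norm_ofReal, abs_of_pos ht]; exact ht1) y
    rw [inner_add_left, inner_add_left, h1, add_right_inj, inner_smul_left, inner_smul_left] at h2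
    have h3 : (starRingEnd 𝕜) (t : 𝕜) ≠ 0 := by
      rw [RCLike.conj_ofReal]
      exact_mod_cast ht.ne'
    exact mul_left_cancel₀ h3 h2
  intro x y
  have h1 := key2 (V x) (hV x) y
  -- ⟪V x, V y⟫ = ⟪V x, y⟫ and symmetric
  have h2 := key2 (V y) (hV y) x
  have h3 : inner 𝕜 (V x) (V y) = inner 𝕜 x (V y) := by
    have := congrArg (starRingEnd 𝕜) h2
    rwa [inner_conj_symm, inner_conj_symm] at this
  rw [← h1, h3]

/-- Exposure lemma. -/
lemma fixed_of_exposed (hr : 0 ≤ r) (hG : ∀ g ∈ G, ‖g‖ ≤ C) {V : H →ₗ[𝕜] H}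
    (hV : ∀ x, V (V x) = V x) (hS : ∀ x y, inner 𝕜 (V x) y = inner 𝕜 x (V y))
    (hN : ∀ x, nrm 𝕜 r G (V x) ≤ nrm 𝕜 r G x) {y d : H} (hy : V y = y) (hd : d ∈ G)
    {c ε η : ℝ} (hε : 0 < ε) (hη : 0 < η) (hc : 0 < c)
    (hdy : inner 𝕜 d y = (c : 𝕜)) (hry : r * ‖y‖ < c)
    (hgap : ∀ g ∈ G, ‖inner 𝕜 g y‖ ≤ c - ε ∨
      ∃ a : ℝ, 0 ≤ a ∧ inner 𝕜 g y = (a : 𝕜) ∧ a ≤ c - η * ‖d - g‖ ^ 2) :
    V d = d := by
  set u := d - V d with hu
  have hVu : V u = 0 := by rw [hu, map_sub, hV, sub_self]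
  by_contra hne
  have hu0 : 0 < ‖u‖ := by
    rw [norm_pos_iff, hu, sub_ne_zero]
    exact fun h => hne h.symm
  have hC : 0 ≤ C := (norm_nonneg d).trans (hG d hd)
  have hdu : inner 𝕜 d u = ((‖u‖ ^ 2 : ℝ) : 𝕜) := by
    have h1 : inner 𝕜 (V d) u = 0 := by rw [hS, hVu, inner_zero_right]
    have h2 : inner 𝕜 d u = inner 𝕜 u u + inner 𝕜 (V d) u := by
      rw [← inner_add_left, hu, sub_add_cancel]
    rw [h2, h1, add_zero, inner_self_eq_norm_sq_to_K]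
    push_cast; rfl
  -- lower bound
  have hlow : ∀ t : ℝ, c ≤ nrm 𝕜 r G (y - (t : 𝕜) • u) := by
    intro t
    have h1 : V (y - (t : 𝕜) • u) = y := by rw [map_sub, map_smul, hVu, smul_zero, sub_zero, hy]
    have h2 := hN (y - (t : 𝕜) • u)
    rw [h1] at h2
    refine le_trans ?_ h2
    have h3 := inner_le_nrm (𝕜 := 𝕜) (r := r) hG hd y
    rw [hdy, RCLike.norm_ofReal] at h3
    exact (le_abs_self c).trans h3
  -- choose t
  set M := ‖u‖ * (r + C + ‖u‖ + 2 * C + 1) with hM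
  have hMpos : 0 < M := by positivity
  set κ := min (min (c - r * ‖y‖) ε) (min (c / 2) 1) with hκ
  have hκpos : 0 < κ := by
    rw [hκ]
    refine lt_min (lt_min (by linarith) hε) (lt_min (by linarith) one_pos)
  set t := min (κ / (2 * M)) (2 * η) with ht
  have htpos : 0 < t := by rw [ht]; positivity
  have htM : t * M ≤ κ / 2 := by
    calc t * M ≤ κ / (2 * M) * M := by
          gcongr; exact min_le_left _ _
      _ = κ / 2 := by field_simp
  have htη : t ≤ 2 * η := min_le_right _ _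
  have hκ1 : κ ≤ c - r * ‖y‖ := (min_le_left _ _).trans (min_le_left _ _)
  have hκ2 : κ ≤ ε := (min_le_left _ _).trans (min_le_right _ _)
  have hκ3 : κ ≤ c / 2 := (min_le_right _ _).trans (min_le_left _ _)
  have e1 : t * (‖u‖ * r) ≤ t * M := by
    rw [hM]
    refine mul_le_mul_of_nonneg_left (mul_le_mul_of_nonneg_left ?_ hu0.le) htpos.le
    linarith
  have e2 : t * (‖u‖ * C) ≤ t * M := by
    rw [hM]
    refine mul_le_mul_of_nonneg_left (mul_le_mul_of_nonneg_left ?_ hu0.le) htpos.le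
    linarith
  have e3 : t * (‖u‖ * (‖u‖ + 2 * C)) ≤ t * M := by
    rw [hM]
    refine mul_le_mul_of_nonneg_left (mul_le_mul_of_nonneg_left ?_ hu0.le) htpos.le
    linarith
  set B := max (c - κ / 2) (c - t / 2 * ‖u‖ ^ 2) with hB
  have hBc : B < c := by
    rw [hB]
    refine max_lt (by linarith) ?_
    have : 0 < t / 2 * ‖u‖ ^ 2 := by positivity
    linarith
  have hB0 : 0 ≤ B := by
    rw [hB]
    exact le_max_of_le_left (by linarith)
  refine absurd (hlow t) (not_le.mpr (lt_of_le_of_lt (nrm_le hB0 ?_ ?_) hBc))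
  · -- r part
    have : ‖y - (t : 𝕜) • u‖ ≤ ‖y‖ + t * ‖u‖ := by
      refine (norm_sub_le _ _).trans ?_
      rw [norm_smul, RCLike.norm_ofReal, abs_of_pos htpos]
    calc r * ‖y - (t : 𝕜) • u‖ ≤ r * (‖y‖ + t * ‖u‖) := mul_le_mul_of_nonneg_left this hr
      _ = r * ‖y‖ + t * (‖u‖ * r) := by ring
      _ ≤ c - κ / 2 := by linarith
      _ ≤ B := le_max_left _ _
  · intro g hg
    rcases hgap g hg with h | ⟨a, ha0, hay, hac⟩
    · calc ‖inner 𝕜 g (y - (t : 𝕜) • u)‖ = ‖inner 𝕜 g y - (t : 𝕜) * inner 𝕜 g u‖ := by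
            rw [inner_sub_right, inner_smul_right]
        _ ≤ ‖inner 𝕜 g y‖ + ‖(t : 𝕜) * inner 𝕜 g u‖ := norm_sub_le _ _
        _ = ‖inner 𝕜 g y‖ + t * ‖inner 𝕜 g u‖ := by
            rw [norm_mul, RCLike.norm_ofReal, abs_of_pos htpos]
        _ ≤ (c - ε) + t * (C * ‖u‖) := by
            gcongr
            exact (norm_inner_le_norm _ _).trans
              (mul_le_mul_of_nonneg_right (hG g hg) (norm_nonneg _))
        _ = c - ε + t * (‖u‖ * C) := by ring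
        _ ≤ c - κ / 2 := by linarith
        _ ≤ B := le_max_left _ _
    · set δ := ‖d - g‖ with hδ
      have hgu : inner 𝕜 g u = ((‖u‖ ^ 2 : ℝ) : 𝕜) - inner 𝕜 (d - g) u := by
        rw [inner_sub_left, hdu]; ring
      have hx : inner 𝕜 g (y - (t : 𝕜) • u) =
          ((a - t * ‖u‖ ^ 2 : ℝ) : 𝕜) + (t : 𝕜) * inner 𝕜 (d - g) u := by
        rw [inner_sub_right, inner_smul_right, hay, hgu]; push_cast; ring
      have hn : ‖inner 𝕜 g (y - (t : 𝕜) • u)‖ ≤ |a - t * ‖u‖ ^ 2| + t * (δ * ‖u‖) := by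
        rw [hx]
        refine (norm_add_le _ _).trans ?_
        rw [RCLike.norm_ofReal, norm_mul, RCLike.norm_ofReal, abs_of_pos htpos]
        gcongr
        exact norm_inner_le_norm _ _
      have hδ2 : δ ≤ 2 * C := by
        refine (norm_sub_le _ _).trans ?_
        linarith [hG d hd, hG g hg]
      have hδ0 : 0 ≤ δ := norm_nonneg _
      rcases le_total (t * ‖u‖ ^ 2) a with h | h
      · rw [abs_of_nonneg (by linarith)] at hn
        refine hn.trans ((?_ : _ ≤ c - t / 2 * ‖u‖ ^ 2).trans (le_max_right _ _))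
        -- a - t‖u‖² + tδ‖u‖ ≤ c - ηδ² - t‖u‖² + tδ‖u‖
        have hsq : t * (δ * ‖u‖) ≤ η * δ ^ 2 + t / 2 * ‖u‖ ^ 2 := by
          have h1 : 0 ≤ t / 2 * (δ - ‖u‖) ^ 2 := by positivity
          have h2 : t / 2 * δ ^ 2 ≤ η * δ ^ 2 := by
            apply mul_le_mul_of_nonneg_right _ (sq_nonneg _); linarith
          nlinarith
        linarith
      · rw [abs_of_nonpos (by linarith)] at hn
        refine hn.trans ((?_ : _ ≤ c - κ / 2).trans (le_max_left _ _))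
        have h1 : t * (δ * ‖u‖) ≤ t * (2 * C * ‖u‖) := by gcongr
        have h2 : t * (‖u‖ * (‖u‖ + 2 * C)) = t * ‖u‖ ^ 2 + t * (2 * C * ‖u‖) := by ring
        linarith

end Abstract

end Pool.Agent.Lib.Helper29.PiBasis
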