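import Pool.Agent.Lib.Helper29.PiBasis.A

set_option autoImplicit false

open scoped InnerProductSpace
open Filter Topology

namespace Pool.Agent.Lib.Helper29.PiBasis

/-! ### Numerical sequences -/

noncomputable def tau (n : ℕ) : ℝ := (1 / 4) ^ (n + 2)
noncomputable def mu (n : ℕ) : ℝ := 1 / (1 + tau n ^ 2)
noncomputable def lam (n : ℕ) : ℝ := (1 + mu n) / 2
noncomputable def phi (n : ℕ) : ℝ := tau n / 2

lemma tau_pos (n : ℕ) : 0 < tau n := by unfold tau; positivity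
lemma phi_pos (n : ℕ) : 0 < phi n := by unfold phi; have := tau_pos n; positivity
lemma tau_le (n : ℕ) : tau n ≤ 1 / 16 := by
  unfold tau
  calc ((1 : ℝ) / 4) ^ (n + 2) ≤ (1 / 4) ^ 2 := pow_le_pow_of_le_one (by norm_num) (by norm_num) (by omega)
    _ = 1 / 16 := by norm_num
lemma tau_succ (n : ℕ) : tau (n + 1) = tau n / 4 := by unfold tau; ring
lemma tau_anti {m n : ℕ} (h : m ≤ n) : tau n ≤ tau m :=
  pow_le_pow_of_le_one (by norm_num) (by norm_num) (by omega)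
lemma tau_tendsto : Tendsto tau atTop (𝓝 0) := by
  unfold tau
  exact (tendsto_pow_atTop_nhds_zero_of_lt_one (by norm_num) (by norm_num)).comp
    (tendsto_add_atTop_nat 2)
lemma mu_pos (n : ℕ) : 0 < mu n := by unfold mu; positivity
lemma mu_lt_one (n : ℕ) : mu n < 1 := by
  unfold mu
  rw [div_lt_one (by positivity)]
  have := tau_pos n
  nlinarith [sq_pos_of_pos this]
lemma mu_mul (n : ℕ) : mu n * (1 + tau n ^ 2) = 1 := by
  unfold mu; field_simp
lemma one_sub_mu (n : ℕ) : 1 - mu n = mu n * tau n ^ 2 := by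
  have := mu_mul n; linarith
lemma one_sub_mu_le (n : ℕ) : 1 - mu n ≤ tau n ^ 2 := by
  rw [one_sub_mu]
  exact mul_le_of_le_one_left (sq_nonneg _) (mu_lt_one n).le
lemma lam_eq (n : ℕ) : lam n = mu n * (1 + tau n * phi n) := by
  unfold lam phi
  have := mu_mul n
  nlinarith
lemma lam_pos (n : ℕ) : 0 < lam n := by unfold lam; have := mu_pos n; linarith
lemma lam_lt_one (n : ℕ) : lam n < 1 := by unfold lam; have := mu_lt_one n; linarith
lemma lam_ge (n : ℕ) : 1 - tau n ^ 2 / 2 ≤ lam n := by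
  unfold lam; have := one_sub_mu_le n; linarith

/-- sums of `tau i ^ 2` -/
lemma sum_tau_sq (n : ℕ) : ∑ i ∈ Finset.range n, tau i ^ 2 ≤ 1 / 240 := by
  have h : ∑ i ∈ Finset.range n, tau i ^ 2 = 1 / 240 * (1 - (1 / 16) ^ n) := by
    induction n with
    | zero => simp
    | succ n ih =>
      rw [Finset.sum_range_succ, ih]
      unfold tau
      have : ((1 / 4 : ℝ) ^ (n + 2)) ^ 2 = (1 / 256) * (1 / 16) ^ n := by
        rw [← pow_mul, show (n + 2) * 2 = 2 * n + 4 by ring, pow_add, pow_mul]; norm_num; ring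
      rw [this]; ring
  rw [h]
  have : 0 < ((1 : ℝ) / 16) ^ n := by positivity
  linarith

section Concrete

variable {𝕜 : Type*} [RCLike 𝕜] {H : Type*} [NormedAddCommGroup H] [InnerProductSpace 𝕜 H]
variable (b : HilbertBasis ℕ 𝕜 H)

/-- special basis vector -/
noncomputable def e0 : H := b 0
/-- site basis vectors -/
noncomputable def e (n : ℕ) : H := b (n + 1)

@[simp] lemma e0_e0 : inner 𝕜 (e0 b) (e0 b) = (1 : 𝕜) := by
  unfold e0; rw [orthonormal_iff_ite.mp b.orthonormal]; simp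
@[simp] lemma e0_e (n : ℕ) : inner 𝕜 (e0 b) (e b n) = (0 : 𝕜) := by
  unfold e0 e; rw [orthonormal_iff_ite.mp b.orthonormal]; simp
@[simp] lemma e_e0 (n : ℕ) : inner 𝕜 (e b n) (e0 b) = (0 : 𝕜) := by
  unfold e0 e; rw [orthonormal_iff_ite.mp b.orthonormal]; simp
lemma e_e (m n : ℕ) : inner 𝕜 (e b m) (e b n) = (if m = n then (1 : 𝕜) else 0) := by
  unfold e; rw [orthonormal_iff_ite.mp b.orthonormal]; simp
@[simp] lemma e_e_self (n : ℕ) : inner 𝕜 (e b n) (e b n) = (1 : 𝕜) := by rw [e_e, if_pos rfl]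
lemma e_e_ne {m n : ℕ} (h : m ≠ n) : inner 𝕜 (e b m) (e b n) = (0 : 𝕜) := by simp [e_e, h]
@[simp] lemma norm_e0 : ‖e0 b‖ = 1 := b.orthonormal.1 0
@[simp] lemma norm_e (n : ℕ) : ‖e b n‖ = 1 := b.orthonormal.1 (n + 1)

/-- the tilted vector `e₀ + τ_n e_n` -/
noncomputable def gv (n : ℕ) : H := e0 b + (tau n : 𝕜) • e b n

lemma gv_gv (n : ℕ) : inner 𝕜 (gv b n) (gv b n) = ((1 + tau n ^ 2 : ℝ) : 𝕜) := by
  unfold gv
  simp only [inner_add_left, inner_add_right, inner_smul_left, inner_smul_right, e0_e0, e0_e, e_e0,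
    e_e_self, RCLike.conj_ofReal]
  push_cast; ring

lemma e_gv_ne {i n : ℕ} (h : i ≠ n) : inner 𝕜 (e b i) (gv b n) = (0 : 𝕜) := by
  unfold gv; simp [inner_add_right, inner_smul_right, e_e_ne b h]
lemma e_gv_self (n : ℕ) : inner 𝕜 (e b n) (gv b n) = (tau n : 𝕜) := by
  unfold gv; simp [inner_add_right, inner_smul_right]
lemma e0_gv (n : ℕ) : inner 𝕜 (e0 b) (gv b n) = (1 : 𝕜) := by
  unfold gv; simp [inner_add_right, inner_smul_right]
lemma gv_inner (n : ℕ) (x : H) :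
    inner 𝕜 (gv b n) x = inner 𝕜 (e0 b) x + (tau n : 𝕜) * inner 𝕜 (e b n) x := by
  unfold gv; simp [inner_add_left, inner_smul_left]

/-- The projections -/
noncomputable def P (n : ℕ) : H →L[𝕜] H :=
  ∑ i ∈ Finset.range n, (innerSL 𝕜 (e b i)).smulRight (e b i) +
    (mu n : 𝕜) • (innerSL 𝕜 (gv b n)).smulRight (gv b n)

lemma P_apply (n : ℕ) (x : H) : P b n x = ∑ i ∈ Finset.range n, inner 𝕜 (e b i) x • e b i +
    ((mu n : 𝕜) * inner 𝕜 (gv b n) x) • gv b n := by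
  simp [P, smul_smul]

lemma P_symm (n : ℕ) (x y : H) : inner 𝕜 (P b n x) y = inner 𝕜 x (P b n y) := by
  rw [P_apply, P_apply, inner_add_left, inner_add_right, sum_inner, inner_sum]
  congr 1
  · refine Finset.sum_congr rfl fun i _ => ?_
    rw [inner_smul_left, inner_smul_right, inner_conj_symm]; ring
  · rw [inner_smul_left, inner_smul_right, map_mul, RCLike.conj_ofReal, inner_conj_symm]; ring

lemma P_e_lt {i n : ℕ} (h : i < n) : P b n (e b i) = e b i := by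
  rw [P_apply, Finset.sum_eq_single i]
  · rw [gv_inner]; simp [e_e_ne b h.ne']
  · intro j _ hj; simp [e_e_ne b hj]
  · intro h'; exact absurd (Finset.mem_range.mpr h) h'

lemma P_e_gt {i n : ℕ} (h : n < i) : P b n (e b i) = 0 := by
  rw [P_apply, Finset.sum_eq_zero]
  · rw [gv_inner]; simp [e_e_ne b h.ne]
  · intro j hj
    rw [e_e_ne b (by have := Finset.mem_range.mp hj; omega), zero_smul]

lemma P_e_self (n : ℕ) : P b n (e b n) = ((mu n * tau n : ℝ) : 𝕜) • gv b n := by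
  rw [P_apply, Finset.sum_eq_zero]
  · rw [gv_inner]; simp
  · intro j hj
    rw [e_e_ne b (by have := Finset.mem_range.mp hj; omega), zero_smul]

lemma P_e0 (n : ℕ) : P b n (e0 b) = (mu n : 𝕜) • gv b n := by
  rw [P_apply, Finset.sum_eq_zero]
  · rw [gv_inner]; simp
  · intro j hj; simp

lemma P_gv (n : ℕ) : P b n (gv b n) = gv b n := by
  conv_lhs => rw [gv]
  rw [map_add, map_smul, P_e0, P_e_self, smul_smul, ← add_smul]
  have : (mu n : 𝕜) + (tau n : 𝕜) * ((mu n * tau n : ℝ) : 𝕜) = 1 := by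
    have := mu_mul n
    have h : mu n + tau n * (mu n * tau n) = 1 := by nlinarith
    exact_mod_cast h
  rw [this, one_smul]

lemma P_idem (n : ℕ) (x : H) : P b n (P b n x) = P b n x := by
  conv_lhs => rw [P_apply b n x]
  conv_rhs => rw [P_apply b n x]
  rw [map_add, map_sum, map_smul, P_gv]
  congr 1
  refine Finset.sum_congr rfl fun i hi => ?_
  rw [map_smul, P_e_lt b (Finset.mem_range.mp hi)]

lemma norm_sq_P (n : ℕ) (x : H) : ((‖P b n x‖ ^ 2 : ℝ) : 𝕜) = inner 𝕜 x (P b n x) := by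
  have := inner_self_eq_norm_sq_to_K (𝕜 := 𝕜) (P b n x)
  rw [P_symm, P_idem] at this
  rw [this]; push_cast; rfl

lemma norm_P_le (n : ℕ) (x : H) : ‖P b n x‖ ≤ ‖x‖ := by
  have h1 := norm_sq_P b n x
  have h2 : ‖P b n x‖ ^ 2 ≤ ‖x‖ * ‖P b n x‖ := by
    have h3 := congrArg (fun z : 𝕜 => ‖z‖) h1
    simp only [RCLike.norm_ofReal] at h3
    rw [abs_of_nonneg (by positivity)] at h3
    rw [h3]; exact norm_inner_le_norm _ _
  by_cases h0 : ‖P b n x‖ = 0
  · rw [h0]; exact norm_nonneg _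
  · have h4 : 0 < ‖P b n x‖ := lt_of_le_of_ne (norm_nonneg _) (Ne.symm h0)
    nlinarith

/-! ### the vector f -/

/-- coordinates of `f` -/
noncomputable def Fc (𝕜 : Type*) [RCLike 𝕜] (i : ℕ) : 𝕜 :=
  match i with
  | 0 => 1
  | n + 1 => (phi n : 𝕜)

lemma norm_Fc_sq (n : ℕ) : ‖Fc 𝕜 (n + 1)‖ ^ 2 = 1 / 1024 * (1 / 16) ^ n := by
  simp only [Fc, RCLike.norm_ofReal, sq_abs, phi, tau]
  rw [div_pow, ← pow_mul, show (n + 2) * 2 = 2 * n + 4 by ring, pow_add, pow_mul]; norm_num; ring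

lemma hasSum_Fc : HasSum (fun n => ‖Fc 𝕜 (n + 1)‖ ^ 2) (1 / 960) := by
  have h := (hasSum_geometric_of_lt_one (r := (1 / 16 : ℝ)) (by norm_num) (by norm_num)).mul_left
    (1 / 1024)
  simp only [norm_Fc_sq]
  rwa [show (1 : ℝ) / 1024 * (1 - 1 / 16)⁻¹ = 1 / 960 by norm_num] at h

lemma hasSum_Fc' : HasSum (fun n => ‖Fc 𝕜 n‖ ^ 2) (1 + 1 / 960) := by
  rw [add_comm]
  have h := (hasSum_nat_add_iff (f := fun n => ‖Fc 𝕜 n‖ ^ 2) 1).mp hasSum_Fc
  simpa [Fc] using h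

lemma memlp_Fc : Memℓp (Fc 𝕜) 2 := by
  apply memℓp_gen
  have := (hasSum_Fc' (𝕜 := 𝕜)).summable
  simpa using this

/-- the vector `f = e₀ + ∑ (τ_n / 2) e_n` -/
noncomputable def f : H := b.repr.symm ⟨Fc 𝕜, memlp_Fc⟩

lemma b_f (i : ℕ) : inner 𝕜 (b i) (f b) = Fc 𝕜 i := by
  rw [← b.repr_apply_apply, f, LinearIsometryEquiv.apply_symm_apply]

@[simp] lemma e0_f : inner 𝕜 (e0 b) (f b) = (1 : 𝕜) := b_f b 0
@[simp] lemma e_f (n : ℕ) : inner 𝕜 (e b n) (f b) = (phi n : 𝕜) := b_f b (n + 1)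

/-- Parseval -/
lemma hasSum_norm_sq (x : H) : HasSum (fun i => ‖inner 𝕜 (b i) x‖ ^ 2) (‖x‖ ^ 2) := by
  have h := b.hasSum_inner_mul_inner x x
  have h2 := RCLike.hasSum_re 𝕜 h
  convert h2 using 1
  · ext i
    rw [← inner_conj_symm x (b i), RCLike.conj_mul]
    norm_cast
  · rw [inner_self_eq_norm_sq_to_K]
    norm_cast

lemma norm_f_sq : ‖f b‖ ^ 2 = 1 + 1 / 960 := by
  have h := hasSum_norm_sq b (f b)
  simp only [b_f] at h
  exact h.unique hasSum_Fc'

end Concrete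

end Pool.Agent.Lib.Helper29.PiBasis
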