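import Pool.Agent.Lib.Helper29.PiBasis.B

set_option autoImplicit false

open scoped InnerProductSpace
open Filter Topology

namespace Pool.Agent.Lib.Helper29.PiBasis

section Concrete

variable {𝕜 : Type*} [RCLike 𝕜] {H : Type*} [NormedAddCommGroup H] [InnerProductSpace 𝕜 H]
variable (b : HilbertBasis ℕ 𝕜 H)

lemma nsq (x : H) : ((‖x‖ ^ 2 : ℝ) : 𝕜) = inner 𝕜 x x := by
  rw [inner_self_eq_norm_sq_to_K]; push_cast; rfl

lemma real_inner_comm' {x y : H} {a : ℝ} (h : inner 𝕜 x y = (a : 𝕜)) : inner 𝕜 y x = (a : 𝕜) := by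
  rw [← inner_conj_symm, h, RCLike.conj_ofReal]

/-- `z n = P_n f` -/
noncomputable def z (n : ℕ) : H := P b n (f b)

lemma z_eq (n : ℕ) : z b n = ∑ i ∈ Finset.range n, (phi i : 𝕜) • e b i + (lam n : 𝕜) • gv b n := by
  rw [z, P_apply]
  congr 1
  · exact Finset.sum_congr rfl fun i _ => by rw [e_f]
  · rw [gv_inner, e0_f, e_f, lam_eq]; push_cast; rfl

lemma inner_sum_e {n i : ℕ} (c : ℕ → 𝕜) :
    inner 𝕜 (e b i) (∑ j ∈ Finset.range n, c j • e b j) = if i < n then c i else 0 := by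
  rw [inner_sum]
  split_ifs with h
  · rw [Finset.sum_eq_single i]
    · simp [inner_smul_right]
    · intro j _ hj; simp [inner_smul_right, e_e_ne b hj.symm]
    · intro h'; exact absurd (Finset.mem_range.mpr h) h'
  · refine Finset.sum_eq_zero fun j hj => ?_
    have : i ≠ j := by have := Finset.mem_range.mp hj; omega
    simp [inner_smul_right, e_e_ne b this]

lemma e0_z (n : ℕ) : inner 𝕜 (e0 b) (z b n) = (lam n : 𝕜) := by
  rw [z_eq, inner_add_right, inner_smul_right, e0_gv, inner_sum]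
  simp [inner_smul_right]

lemma e_z_lt {i n : ℕ} (h : i < n) : inner 𝕜 (e b i) (z b n) = (phi i : 𝕜) := by
  rw [z_eq, inner_add_right, inner_sum_e, if_pos h, inner_smul_right, e_gv_ne b h.ne]; simp

lemma e_z_self (n : ℕ) : inner 𝕜 (e b n) (z b n) = ((lam n * tau n : ℝ) : 𝕜) := by
  rw [z_eq, inner_add_right, inner_sum_e, if_neg (lt_irrefl n), inner_smul_right, e_gv_self]
  push_cast; ring

lemma e_z_gt {i n : ℕ} (h : n < i) : inner 𝕜 (e b i) (z b n) = (0 : 𝕜) := by
  rw [z_eq, inner_add_right, inner_sum_e, if_neg (by omega), inner_smul_right, e_gv_ne b h.ne']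
  simp

lemma z_inner (n : ℕ) (x : H) : inner 𝕜 (z b n) x =
    ∑ i ∈ Finset.range n, (phi i : 𝕜) * inner 𝕜 (e b i) x +
      (lam n : 𝕜) * (inner 𝕜 (e0 b) x + (tau n : 𝕜) * inner 𝕜 (e b n) x) := by
  rw [z_eq, inner_add_left, sum_inner, inner_smul_left, gv_inner]
  simp [inner_smul_left]

lemma f_z (n : ℕ) : inner 𝕜 (f b) (z b n) = ((‖z b n‖ ^ 2 : ℝ) : 𝕜) := (norm_sq_P b n (f b)).symm

/-- `⟪z_n, f - z_{n'}⟫ = λ_n (1 - λ_{n'})` for `n < n'`. -/
lemma z_f_sub_z {n n' : ℕ} (h : n < n') :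
    inner 𝕜 (z b n) (f b - z b n') = ((lam n * (1 - lam n') : ℝ) : 𝕜) := by
  rw [z_inner, Finset.sum_eq_zero, inner_sub_right, inner_sub_right, e0_f, e0_z, e_f, e_z_lt b h]
  · push_cast; ring
  · intro i hi
    rw [inner_sub_right, e_f, e_z_lt b (by have := Finset.mem_range.mp hi; omega)]; ring

/-- The orbit of `f` under increasing words; `n` is the first letter, all letters are `< m`
and `s` is the coefficient of `e₀`. -/
inductive Orb (n : ℕ) : ℕ → ℝ → H → Prop
  | base : Orb n (n + 1) (lam n) (z b n)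
  | step {m k : ℕ} {s : ℝ} {g : H} (h : Orb n m s g) (hk : m ≤ k) :
      Orb n (k + 1) (s * mu k)
        (g - ((s * (1 - mu k) : ℝ) : 𝕜) • e0 b + ((s * mu k * tau k : ℝ) : 𝕜) • e b k)

/-- facts on orbit elements -/
structure OF (n m : ℕ) (s : ℝ) (g : H) : Prop where
  hnm : n < m
  s_pos : 0 < s
  s_le : s ≤ lam n
  s_ge : 1 - ∑ i ∈ Finset.range m, tau i ^ 2 ≤ s
  he0 : inner 𝕜 (e0 b) g = (s : 𝕜)
  he_ge : ∀ i, m ≤ i → inner 𝕜 (e b i) g = (0 : 𝕜)
  he_lt : ∀ i, i < n → inner 𝕜 (e b i) g = (phi i : 𝕜)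
  he_self : inner 𝕜 (e b n) g = ((lam n * tau n : ℝ) : 𝕜)
  he_nonneg : ∀ i, ∃ a : ℝ, 0 ≤ a ∧ inner 𝕜 (e b i) g = (a : 𝕜)
  hf : inner 𝕜 (f b) g = ((‖z b n‖ ^ 2 - (lam n - s) / 2 : ℝ) : 𝕜)
  hnorm : ‖g‖ ^ 2 ≤ ‖z b n‖ ^ 2 - s * (lam n - s)
  hz : inner 𝕜 (z b n) g = ((‖z b n‖ ^ 2 - lam n * (lam n - s) : ℝ) : 𝕜)

lemma z_e_gt {n k : ℕ} (h : n < k) : inner 𝕜 (z b n) (e b k) = (0 : 𝕜) := by
  have := real_inner_comm' (𝕜 := 𝕜) (a := 0) (x := e b k) (y := z b n) (by simpa using e_z_gt b h)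
  simpa using this

lemma z_e0 (n : ℕ) : inner 𝕜 (z b n) (e0 b) = (lam n : 𝕜) := real_inner_comm' (e0_z b n)
lemma f_e0 : inner 𝕜 (f b) (e0 b) = (1 : 𝕜) := by
  have := real_inner_comm' (𝕜 := 𝕜) (a := 1) (x := e0 b) (y := f b) (by simp)
  simpa using this
lemma f_e (n : ℕ) : inner 𝕜 (f b) (e b n) = (phi n : 𝕜) := real_inner_comm' (e_f b n)

lemma orb_facts {n m : ℕ} {s : ℝ} {g : H} (h : Orb b n m s g) : OF b n m s g := by
  induction h with
  | base =>
    refine ⟨Nat.lt_succ_self n, lam_pos n, le_rfl, ?_, e0_z b n, ?_, ?_, e_z_self b n, ?_, ?_, ?_, ?_⟩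
    · have h1 := lam_ge n
      have h2 : tau n ^ 2 ≤ ∑ i ∈ Finset.range (n + 1), tau i ^ 2 :=
        Finset.single_le_sum (f := fun i => tau i ^ 2) (fun i _ => sq_nonneg _)
          (Finset.mem_range.mpr (Nat.lt_succ_self n))
      have h3 := sq_nonneg (tau n)
      linarith
    · intro i hi; exact e_z_gt b (by omega)
    · intro i hi; exact e_z_lt b hi
    · intro i
      rcases lt_trichotomy i n with hi | hi | hi
      · exact ⟨phi i, (phi_pos i).le, e_z_lt b hi⟩
      · subst hi; exact ⟨lam i * tau i, (mul_pos (lam_pos i) (tau_pos i)).le, e_z_self b i⟩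
      · exact ⟨0, le_rfl, by simpa using e_z_gt b hi⟩
    · rw [f_z]; simp
    · simp
    · rw [← nsq]; simp
  | @step m k s g h hk ih =>
    have hmu1 := mu_lt_one k
    have hmu0 := mu_pos k
    have htau := tau_pos k
    have hs0 := ih.s_pos
    have hnk : n < k := lt_of_lt_of_le ih.hnm hk
    have hek : inner 𝕜 (e b k) g = (0 : 𝕜) := ih.he_ge k hk
    refine ⟨by omega, mul_pos hs0 hmu0, ?_, ?_, ?_, ?_, ?_, ?_, ?_, ?_, ?_, ?_⟩
    · exact (mul_le_of_le_one_right hs0.le hmu1.le).trans ih.s_le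
    · have h1 : ∑ i ∈ Finset.range m, tau i ^ 2 ≤ ∑ i ∈ Finset.range k, tau i ^ 2 :=
        Finset.sum_le_sum_of_subset_of_nonneg (Finset.range_mono hk) fun _ _ _ => sq_nonneg _
      rw [Finset.sum_range_succ]
      have h2 := ih.s_ge
      have h3 : s * (1 - mu k) ≤ tau k ^ 2 := by
        have h4 := one_sub_mu_le k
        have h5 : s ≤ 1 := ih.s_le.trans (lam_lt_one n).le
        nlinarith
      nlinarith
    · rw [inner_add_right, inner_sub_right, inner_smul_right, inner_smul_right, ih.he0]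
      simp only [e0_e0, e0_e]; push_cast; ring
    · intro i hi
      rw [inner_add_right, inner_sub_right, inner_smul_right, inner_smul_right,
        ih.he_ge i (by omega), e_e0, e_e_ne b (by omega)]; simp
    · intro i hi
      rw [inner_add_right, inner_sub_right, inner_smul_right, inner_smul_right,
        ih.he_lt i hi, e_e0, e_e_ne b (by omega)]; simp
    · rw [inner_add_right, inner_sub_right, inner_smul_right, inner_smul_right,
        ih.he_self, e_e0, e_e_ne b (by omega)]; simp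
    · intro i
      obtain ⟨a, ha, hai⟩ := ih.he_nonneg i
      by_cases hik : i = k
      · subst hik
        refine ⟨s * mu i * tau i, by positivity, ?_⟩
        rw [inner_add_right, inner_sub_right, inner_smul_right, inner_smul_right, hek, e_e0,
          e_e_self]; simp
      · refine ⟨a, ha, ?_⟩
        rw [inner_add_right, inner_sub_right, inner_smul_right, inner_smul_right, hai, e_e0,
          e_e_ne b hik]; simp
    · rw [inner_add_right, inner_sub_right, inner_smul_right, inner_smul_right, ih.hf, f_e0, f_e]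
      have h1 := one_sub_mu k
      have : ‖z b n‖ ^ 2 - (lam n - s * mu k) / 2 =
          ‖z b n‖ ^ 2 - (lam n - s) / 2 - s * (1 - mu k) * 1 + s * mu k * tau k * phi k := by
        unfold phi
        have h2 : mu k * tau k * tau k = 1 - mu k := by rw [h1]; ring
        linear_combination (s / 2) * (-h2)
      rw [this]; push_cast; ring
    · have hkey : ((‖g - ((s * (1 - mu k) : ℝ) : 𝕜) • e0 b +
          ((s * mu k * tau k : ℝ) : 𝕜) • e b k‖ ^ 2 : ℝ) : 𝕜) =
          ((‖g‖ ^ 2 - s ^ 2 * (1 - mu k) : ℝ) : 𝕜) := by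
        have hg0 : inner 𝕜 g (e0 b) = (s : 𝕜) := real_inner_comm' ih.he0
        have hgk : inner 𝕜 g (e b k) = (0 : 𝕜) := by
          have := real_inner_comm' (𝕜 := 𝕜) (a := 0) (x := e b k) (y := g) (by simpa using hek)
          simpa using this
        have h2 : mu k * tau k ^ 2 = 1 - mu k := (one_sub_mu k).symm
        rw [nsq]
        simp only [inner_add_left, inner_add_right, inner_sub_left, inner_sub_right,
          inner_smul_left, inner_smul_right, RCLike.conj_ofReal, hg0, hgk, hek, ih.he0, e0_e0,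
          e0_e, e_e0, e_e_self, ← nsq (𝕜 := 𝕜) g]
        have h3 : ‖g‖ ^ 2 - s ^ 2 * (1 - mu k) = ‖g‖ ^ 2 - s * (1 - mu k) * s
          - (s * (1 - mu k) * (s - s * (1 - mu k) * 1)) +
            s * mu k * tau k * (s * mu k * tau k) := by
          linear_combination (-(s ^ 2 * mu k)) * h2
        rw [h3]; push_cast; ring
      have hkey' := RCLike.ofReal_injective hkey
      rw [hkey']
      have h1 := ih.hnorm
      have h2 : 0 ≤ s * (1 - mu k) * (lam n - s * mu k) := by
        apply mul_nonneg (mul_nonneg hs0.le (by linarith))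
        have := mul_le_of_le_one_right hs0.le hmu1.le
        linarith [ih.s_le]
      nlinarith
    · rw [inner_add_right, inner_sub_right, inner_smul_right, inner_smul_right, ih.hz, z_e0,
        z_e_gt b hnk]
      push_cast; ring

end Concrete

end Pool.Agent.Lib.Helper29.PiBasis
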