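import Pool.Agent.Lib.Helper29.PiBasis.C

set_option autoImplicit false

open scoped InnerProductSpace
open Filter Topology

namespace Pool.Agent.Lib.Helper29.PiBasis

section Concrete

variable {𝕜 : Type*} [RCLike 𝕜] {H : Type*} [NormedAddCommGroup H] [InnerProductSpace 𝕜 H]
variable (b : HilbertBasis ℕ 𝕜 H)

/-- the set of norming functionals -/
def G : Set H := {g | g = f b ∨ (∃ n m s, Orb b n m s g) ∨ ∃ i, g = ((3 / 5 : ℝ) : 𝕜) • e b i}

/-- truncation to the first `j` sites -/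
noncomputable def Q (j : ℕ) (x : H) : H := ∑ i ∈ Finset.range j, inner 𝕜 (e b i) x • e b i

lemma inner_b_e0 (x : H) : inner 𝕜 (b 0) x = inner 𝕜 (e0 b) x := rfl
lemma inner_b_e (n : ℕ) (x : H) : inner 𝕜 (b (n + 1)) x = inner 𝕜 (e b n) x := rfl

lemma norm_Q_sq (j : ℕ) (x : H) :
    ‖Q b j x‖ ^ 2 = ∑ i ∈ Finset.range j, ‖inner 𝕜 (e b i) x‖ ^ 2 := by
  have h : ((‖Q b j x‖ ^ 2 : ℝ) : 𝕜) = ((∑ i ∈ Finset.range j, ‖inner 𝕜 (e b i) x‖ ^ 2 : ℝ) : 𝕜) := by
    rw [nsq]
    conv_lhs => rw [Q, sum_inner]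
    rw [RCLike.ofReal_sum]
    refine Finset.sum_congr rfl fun i hi => ?_
    rw [inner_smul_left, inner_sum_e, if_pos (Finset.mem_range.mp hi), RCLike.conj_mul]
    push_cast; rfl
  exact RCLike.ofReal_injective h

lemma bessel (j : ℕ) (x : H) : ‖Q b j x‖ ^ 2 + ‖inner 𝕜 (e0 b) x‖ ^ 2 ≤ ‖x‖ ^ 2 := by
  have h := hasSum_norm_sq b x
  have h1 := sum_le_hasSum (Finset.range (j + 1)) (fun i _ => sq_nonneg _) h
  rw [Finset.sum_range_succ'] at h1
  rw [norm_Q_sq]
  exact h1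

lemma eq_of_support {x : H} {j : ℕ} (h : ∀ i, j ≤ i → inner 𝕜 (e b i) x = (0 : 𝕜)) :
    x = inner 𝕜 (e0 b) x • e0 b + Q b j x := by
  have h1 := b.hasSum_repr x
  have h2 : HasSum (fun i => b.repr x i • b i) (∑ i ∈ Finset.range (j + 1), b.repr x i • b i) := by
    refine hasSum_sum_of_ne_finset_zero fun i hi => ?_
    have hi' : j + 1 ≤ i := by simpa using hi
    obtain ⟨k, rfl⟩ : ∃ k, i = k + 1 := ⟨i - 1, by omega⟩
    rw [b.repr_apply_apply, inner_b_e, h k (by omega), zero_smul]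
  have h3 := h1.unique h2
  conv_lhs => rw [h3]
  rw [Finset.sum_range_succ', add_comm]
  simp only [b.repr_apply_apply, inner_b_e0, inner_b_e]
  rfl

lemma norm_z_sq_le (n : ℕ) : ‖z b n‖ ^ 2 ≤ 1 + 1 / 960 := by
  rw [← norm_f_sq b]
  exact pow_le_pow_left₀ (norm_nonneg _) (norm_P_le b n _) 2

lemma orb_norm_sq {n m : ℕ} {s : ℝ} {g : H} (h : Orb b n m s g) : ‖g‖ ^ 2 ≤ 1 + 1 / 960 := by
  have hf := orb_facts b h
  have h1 := hf.hnorm
  have h2 : 0 ≤ s * (lam n - s) := mul_nonneg hf.s_pos.le (by linarith [hf.s_le])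
  linarith [norm_z_sq_le b n]

lemma orb_s_ge {n m : ℕ} {s : ℝ} {g : H} (h : Orb b n m s g) : 239 / 240 ≤ s := by
  have hf := orb_facts b h
  have := sum_tau_sq m
  linarith [hf.s_ge]

lemma lam_ge' (n : ℕ) : 511 / 512 ≤ lam n := by
  have h1 := lam_ge n
  have h2 := tau_le n
  have h3 := tau_pos n
  nlinarith

lemma orb_perp {n m : ℕ} {s : ℝ} {g : H} (h : Orb b n m s g) : ‖g‖ ^ 2 - s ^ 2 ≤ 1 / 100 := by
  have hf := orb_facts b h
  have h1 := hf.hnorm
  have h2 := orb_s_ge b h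
  have h3 := lam_ge' n
  have h4 := norm_z_sq_le b n
  nlinarith

lemma norm_G_le {g : H} (hg : g ∈ G b) : ‖g‖ ≤ 2 := by
  rcases hg with rfl | ⟨n, m, s, h⟩ | ⟨i, rfl⟩
  · have := norm_f_sq b
    nlinarith [norm_nonneg (f b)]
  · have := orb_norm_sq b h
    nlinarith [norm_nonneg g]
  · rw [norm_smul, RCLike.norm_ofReal, norm_e, abs_of_pos (by norm_num)]; norm_num

/-- main structural property of the norming set under the projections -/
def TT (j : ℕ) (g : H) (s : ℝ) : Prop :=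
  ∃ g' ∈ G b, ∃ s' a : ℝ, 0 ≤ a ∧ inner 𝕜 (e b j) g = (a : 𝕜) ∧
    g' = Q b j g + (s' : 𝕜) • gv b j ∧ mu j * (s + tau j * a) ≤ s'

lemma Q_congr {j : ℕ} {x y : H} (h : ∀ i, i < j → inner 𝕜 (e b i) x = inner 𝕜 (e b i) y) :
    Q b j x = Q b j y :=
  Finset.sum_congr rfl fun i hi => by rw [h i (Finset.mem_range.mp hi)]

lemma z_eq_Q (n : ℕ) : z b n = Q b n (z b n) + (lam n : 𝕜) • gv b n := by
  conv_lhs => rw [z_eq]
  congr 1
  exact Finset.sum_congr rfl fun i hi => by rw [e_z_lt b (Finset.mem_range.mp hi)]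

lemma TT_gen {n m : ℕ} {s : ℝ} {g : H} (h : Orb b n m s g) {j : ℕ} (hj : m ≤ j) : TT b j g s := by
  have hf := orb_facts b h
  refine ⟨_, Or.inr (Or.inl ⟨_, _, _, Orb.step h hj⟩), s * mu j, 0, le_rfl, ?_, ?_, ?_⟩
  · rw [hf.he_ge j hj]; simp
  · have h1 := eq_of_support b (fun i hi => hf.he_ge i (hj.trans hi))
    rw [hf.he0] at h1
    conv_lhs => rw [h1]
    rw [gv]
    have : ((s * mu j * tau j : ℝ) : 𝕜) = ((s * mu j : ℝ) : 𝕜) * (tau j : 𝕜) := by push_cast; ring
    rw [this, smul_add, smul_smul]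
    have h2 : (s : 𝕜) • e0 b - ((s * (1 - mu j) : ℝ) : 𝕜) • e0 b = ((s * mu j : ℝ) : 𝕜) • e0 b := by
      rw [← sub_smul]; congr 1; push_cast; ring
    rw [← h2]; abel
  · simp [mul_comm]

lemma TT_f (j : ℕ) : TT b j (f b) 1 := by
  refine ⟨z b j, Or.inr (Or.inl ⟨_, _, _, Orb.base⟩), lam j, phi j, (phi_pos j).le, e_f b j, ?_, ?_⟩
  · rw [z_eq_Q]
    congr 1
    exact Q_congr b fun i hi => by rw [e_z_lt b hi, e_f]
  · rw [lam_eq]

lemma TT_orb (j : ℕ) {n m : ℕ} {s : ℝ} {g : H} (h : Orb b n m s g) : TT b j g s := by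
  induction h with
  | base =>
    rcases lt_trichotomy j n with hj | hj | hj
    · refine ⟨z b j, Or.inr (Or.inl ⟨_, _, _, Orb.base⟩), lam j, phi j, (phi_pos j).le,
        e_z_lt b hj, ?_, ?_⟩
      · conv_lhs => rw [z_eq_Q]
        congr 1
        exact Q_congr b fun i hi => by rw [e_z_lt b hi, e_z_lt b (hi.trans hj)]
      · rw [lam_eq j]
        exact mul_le_mul_of_nonneg_left (by linarith [lam_lt_one n]) (mu_pos j).le
    · subst hj
      refine ⟨z b j, Or.inr (Or.inl ⟨_, _, _, Orb.base⟩), lam j, lam j * tau j,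
        (mul_pos (lam_pos j) (tau_pos j)).le, e_z_self b j, z_eq_Q b j, ?_⟩
      have := mu_mul j
      apply le_of_eq
      linear_combination (lam j) * this
    · exact TT_gen b Orb.base hj
  | @step m k s g h hk ih =>
    have hstep : Orb b n (k + 1) (s * mu k) _ := Orb.step h hk
    have hf := orb_facts b h
    have hf1 := orb_facts b hstep
    rcases lt_trichotomy j k with hj | hj | hj
    · obtain ⟨g', hg', s', a, ha, hja, hg'eq, hle⟩ := ih
      have hsame : ∀ i, i < k → inner 𝕜 (e b i) (g - ((s * (1 - mu k) : ℝ) : 𝕜) • e0 b +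
          ((s * mu k * tau k : ℝ) : 𝕜) • e b k) = inner 𝕜 (e b i) g := by
        intro i hi
        rw [inner_add_right, inner_sub_right, inner_smul_right, inner_smul_right, e_e0,
          e_e_ne b (by omega)]; simp
      refine ⟨g', hg', s', a, ha, ?_, ?_, ?_⟩
      · rw [hsame j hj, hja]
      · rw [hg'eq]; congr 1
        exact Q_congr b fun i hi => (hsame i (hi.trans hj)).symm
      · refine le_trans ?_ hle
        apply mul_le_mul_of_nonneg_left _ (mu_pos j).le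
        have := mul_le_of_le_one_right hf.s_pos.le (mu_lt_one k).le
        linarith
    · subst hj
      have hjj : inner 𝕜 (e b j) (g - ((s * (1 - mu j) : ℝ) : 𝕜) • e0 b +
          ((s * mu j * tau j : ℝ) : 𝕜) • e b j) = ((s * mu j * tau j : ℝ) : 𝕜) := by
        rw [inner_add_right, inner_sub_right, inner_smul_right, inner_smul_right, e_e0,
          e_e_self, hf.he_ge j hk]; simp
      refine ⟨_, Or.inr (Or.inl ⟨_, _, _, hstep⟩), s * mu j, s * mu j * tau j,
        (mul_pos (mul_pos hf.s_pos (mu_pos j)) (tau_pos j)).le, hjj, ?_, ?_⟩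
      · have h1 := eq_of_support b (fun i hi => hf1.he_ge i hi)
        rw [hf1.he0] at h1
        conv_lhs => rw [h1]
        have h2 : Q b (j + 1) (g - ((s * (1 - mu j) : ℝ) : 𝕜) • e0 b +
            ((s * mu j * tau j : ℝ) : 𝕜) • e b j) = Q b j (g - ((s * (1 - mu j) : ℝ) : 𝕜) • e0 b +
            ((s * mu j * tau j : ℝ) : 𝕜) • e b j) + ((s * mu j * tau j : ℝ) : 𝕜) • e b j := by
          conv_lhs => rw [Q, Finset.sum_range_succ, hjj]
          rfl
        rw [h2, gv]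
        have h3 : ((s * mu j * tau j : ℝ) : 𝕜) = ((s * mu j : ℝ) : 𝕜) * (tau j : 𝕜) := by
          push_cast; ring
        rw [smul_add, smul_smul, ← h3]; abel
      · have := mu_mul j
        apply le_of_eq
        linear_combination (s * mu j) * this
    · exact TT_gen b hstep hj

lemma norm_gv_le (n : ℕ) : ‖gv b n‖ ≤ 2 := by
  have h : ((‖gv b n‖ ^ 2 : ℝ) : 𝕜) = ((1 + tau n ^ 2 : ℝ) : 𝕜) := by rw [nsq, gv_gv]
  have h1 := RCLike.ofReal_injective h
  have h2 := tau_le n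
  have h3 := tau_pos n
  nlinarith [norm_nonneg (gv b n)]

/-- the new norm -/
noncomputable def N (x : H) : ℝ := nrm 𝕜 (1 / 2) (G b) x

lemma TT_use {j : ℕ} {g : H} {s : ℝ} (hT : TT b j g s) (hs : 0 < s) (hgs : inner 𝕜 (e0 b) g = (s : 𝕜))
    (hQ : ‖Q b j g‖ ≤ 1 / 2) (x : H) : ‖inner 𝕜 (P b j g) x‖ ≤ N b x := by
  obtain ⟨g', hg', s', a, ha, hja, hg'eq, hle⟩ := hT
  set t' := mu j * (s + tau j * a) with ht'
  have ht'pos : 0 < t' := by
    have := mu_pos j
    have := tau_pos j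
    positivity
  have hs' : 0 < s' := lt_of_lt_of_le ht'pos hle
  have hP : P b j g = Q b j g + (t' : 𝕜) • gv b j := by
    rw [P_apply, gv_inner, hja, hgs, ht']
    congr 2
    push_cast; ring
  set t := t' / s' with ht
  have ht0 : 0 ≤ t := by positivity
  have ht1 : t ≤ 1 := (div_le_one hs').mpr hle
  have hP2 : P b j g = (t : 𝕜) • g' + ((1 - t : ℝ) : 𝕜) • Q b j g := by
    rw [hP, hg'eq, smul_add, smul_smul]
    have h1 : (t : 𝕜) * (s' : 𝕜) = (t' : 𝕜) := by
      rw [ht]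
      have : t' / s' * s' = t' := by field_simp
      exact_mod_cast this
    rw [h1]
    have h2 : (t : 𝕜) • Q b j g + ((1 - t : ℝ) : 𝕜) • Q b j g = Q b j g := by
      rw [← add_smul]
      have : (t : 𝕜) + ((1 - t : ℝ) : 𝕜) = 1 := by push_cast; ring
      rw [this, one_smul]
    rw [← h2]
    have h3 : (t : 𝕜) • Q b j g + ((1 - t : ℝ) : 𝕜) • Q b j g + (t' : 𝕜) • gv b j =
      (t : 𝕜) • Q b j g + (t' : 𝕜) • gv b j + ((1 - t : ℝ) : 𝕜) • Q b j g := by abel
    rw [h3, h2]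
  have hbd : ∀ g ∈ G b, ‖g‖ ≤ 2 := fun g hg => norm_G_le b hg
  have h1 : ‖inner 𝕜 g' x‖ ≤ N b x := inner_le_nrm hbd hg' x
  have h2 : ‖inner 𝕜 (Q b j g) x‖ ≤ N b x := by
    refine (norm_inner_le_norm _ _).trans ((mul_le_mul_of_nonneg_right hQ (norm_nonneg _)).trans ?_)
    exact r_le_nrm x
  rw [hP2, inner_add_left, inner_smul_left, inner_smul_left, RCLike.conj_ofReal, RCLike.conj_ofReal]
  refine (norm_add_le _ _).trans ?_
  rw [norm_mul, norm_mul, RCLike.norm_ofReal, RCLike.norm_ofReal, abs_of_nonneg ht0,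
    abs_of_nonneg (by linarith : (0 : ℝ) ≤ 1 - t)]
  calc t * ‖inner 𝕜 g' x‖ + (1 - t) * ‖inner 𝕜 (Q b j g) x‖ ≤ t * N b x + (1 - t) * N b x := by
        gcongr
    _ = N b x := by ring

lemma P_contr (j : ℕ) (x : H) : N b (P b j x) ≤ N b x := by
  have h0 : 0 ≤ N b x := nrm_nonneg (by norm_num) x
  refine nrm_le h0 ?_ ?_
  · refine le_trans ?_ (r_le_nrm x)
    exact mul_le_mul_of_nonneg_left (norm_P_le b j x) (by norm_num)
  · intro g hg
    rw [← P_symm]
    have hbd : ∀ g ∈ G b, ‖g‖ ≤ 2 := fun g hg => norm_G_le b hg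
    rcases hg with rfl | ⟨n, m, s, h⟩ | ⟨i, rfl⟩
    · refine TT_use b (TT_f b j) one_pos (by simp) ?_ x
      have h1 := bessel b j (f b)
      rw [norm_f_sq, e0_f] at h1
      norm_num at h1
      nlinarith [norm_nonneg (Q b j (f b))]
    · have hf := orb_facts b h
      refine TT_use b (TT_orb b j h) hf.s_pos hf.he0 ?_ x
      have h1 := bessel b j g
      rw [hf.he0, RCLike.norm_ofReal, sq_abs] at h1
      have h2 := orb_perp b h
      nlinarith [norm_nonneg (Q b j g)]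
    · rcases lt_trichotomy i j with hij | hij | hij
      · rw [map_smul, P_e_lt b hij]
        exact inner_le_nrm hbd (Or.inr (Or.inr ⟨i, rfl⟩)) x
      · subst hij
        rw [map_smul, P_e_self]
        refine le_trans ?_ (r_le_nrm x)
        refine (norm_inner_le_norm _ _).trans (mul_le_mul_of_nonneg_right ?_ (norm_nonneg _))
        rw [norm_smul, norm_smul, RCLike.norm_ofReal, RCLike.norm_ofReal,
          abs_of_pos (by norm_num : (0 : ℝ) < 3 / 5), abs_of_pos (mul_pos (mu_pos i) (tau_pos i))]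
        have h1 := norm_gv_le b i
        have h2 := mu_lt_one i
        have h3 := mu_pos i
        have h4 := tau_le i
        have h5 := tau_pos i
        have h6 : mu i * tau i ≤ 1 / 16 := by nlinarith
        have h7 : 0 ≤ mu i * tau i := by positivity
        calc 3 / 5 * (mu i * tau i * ‖gv b i‖) ≤ 3 / 5 * (1 / 16 * 2) := by gcongr
          _ ≤ 1 / 2 := by norm_num
      · rw [map_smul, P_e_gt b hij]; simp [h0]

end Concrete

end Pool.Agent.Lib.Helper29.PiBasis
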