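import Pool.Agent.Lib.Helper29.PiBasis.D

set_option autoImplicit false

open scoped InnerProductSpace
open Filter Topology

namespace Pool.Agent.Lib.Helper29.PiBasis

section Concrete

variable {𝕜 : Type*} [RCLike 𝕜] {H : Type*} [NormedAddCommGroup H] [InnerProductSpace 𝕜 H]
variable (b : HilbertBasis ℕ 𝕜 H)

lemma mu_tendsto : Tendsto mu atTop (𝓝 1) := by
  unfold mu
  have h : Tendsto (fun n => 1 / (1 + tau n ^ 2)) atTop (𝓝 (1 / (1 + 0 ^ 2))) := by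
    refine Tendsto.div tendsto_const_nhds (tendsto_const_nhds.add (tau_tendsto.pow 2)) (by norm_num)
  simpa using h

lemma norm_P_sq (n : ℕ) (x : H) : ‖P b n x‖ ^ 2 =
    ∑ i ∈ Finset.range n, ‖inner 𝕜 (e b i) x‖ ^ 2 + mu n * ‖inner 𝕜 (gv b n) x‖ ^ 2 := by
  have h : ((‖P b n x‖ ^ 2 : ℝ) : 𝕜) = ((∑ i ∈ Finset.range n, ‖inner 𝕜 (e b i) x‖ ^ 2 +
      mu n * ‖inner 𝕜 (gv b n) x‖ ^ 2 : ℝ) : 𝕜) := by
    rw [norm_sq_P, P_apply, inner_add_right, inner_sum, inner_smul_right, RCLike.ofReal_add,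
      RCLike.ofReal_sum]
    congr 1
    · refine Finset.sum_congr rfl fun i hi => ?_
      rw [inner_smul_right, ← inner_conj_symm x (e b i), RCLike.mul_conj]
      push_cast; rfl
    · rw [← inner_conj_symm x (gv b n), mul_assoc, RCLike.mul_conj]
      push_cast; rfl
  exact RCLike.ofReal_injective h

lemma norm_sub_P_sq (n : ℕ) (x : H) : ‖x - P b n x‖ ^ 2 = ‖x‖ ^ 2 - ‖P b n x‖ ^ 2 := by
  rw [@norm_sub_sq 𝕜, ← norm_sq_P, RCLike.ofReal_re]; ring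

lemma P_tendsto (x : H) : Tendsto (fun n => P b n x) atTop (𝓝 x) := by
  have h1 : Tendsto (fun n => ‖P b n x‖ ^ 2) atTop (𝓝 (‖x‖ ^ 2)) := by
    have h2 := hasSum_norm_sq b x
    have h3 : Tendsto (fun n => ∑ i ∈ Finset.range n, ‖inner 𝕜 (e b i) x‖ ^ 2) atTop
        (𝓝 (‖x‖ ^ 2 - ‖inner 𝕜 (e0 b) x‖ ^ 2)) := by
      have h4 : HasSum (fun i => ‖inner 𝕜 (b (i + 1)) x‖ ^ 2) (‖x‖ ^ 2 - ‖inner 𝕜 (e0 b) x‖ ^ 2) := by
        have h5 := (hasSum_nat_add_iff' (f := fun i => ‖inner 𝕜 (b i) x‖ ^ 2) 1).mpr h2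
        simpa [e0] using h5
      exact h4.tendsto_sum_nat
    have h6 : Tendsto (fun n => inner 𝕜 (gv b n) x) atTop (𝓝 (inner 𝕜 (e0 b) x)) := by
      have h7 : Tendsto (fun n => (tau n : 𝕜) * inner 𝕜 (e b n) x) atTop (𝓝 0) := by
        rw [tendsto_zero_iff_norm_tendsto_zero]
        have h8 : Tendsto (fun n => tau n * ‖x‖) atTop (𝓝 0) := by
          simpa using tau_tendsto.mul_const ‖x‖
        refine squeeze_zero (fun n => norm_nonneg _) (fun n => ?_) h8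
        rw [norm_mul, RCLike.norm_ofReal, abs_of_pos (tau_pos n)]
        refine mul_le_mul_of_nonneg_left ?_ (tau_pos n).le
        have := norm_inner_le_norm (𝕜 := 𝕜) (e b n) x
        rwa [norm_e, one_mul] at this
      have h9 := (tendsto_const_nhds (x := inner 𝕜 (e0 b) x)).add h7
      simp only [add_zero] at h9
      exact h9.congr fun n => (gv_inner b n x).symm
    have h10 := h3.add (mu_tendsto.mul (h6.norm.pow 2))
    have h11 : ‖x‖ ^ 2 - ‖inner 𝕜 (e0 b) x‖ ^ 2 + 1 * ‖inner 𝕜 (e0 b) x‖ ^ 2 = ‖x‖ ^ 2 := by ring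
    rw [h11] at h10
    exact h10.congr fun n => (norm_P_sq b n x).symm
  have h2 : Tendsto (fun n => ‖x - P b n x‖ ^ 2) atTop (𝓝 0) := by
    have h3 := (tendsto_const_nhds (x := ‖x‖ ^ 2)).sub h1
    simp only [sub_self] at h3
    exact h3.congr fun n => (norm_sub_P_sq b n x).symm
  have h4 : Tendsto (fun n => ‖x - P b n x‖) atTop (𝓝 0) := by
    have h5 := h2.sqrt
    simpa [Real.sqrt_sq (norm_nonneg _)] using h5
  have h6 : Tendsto (fun n => x - P b n x) atTop (𝓝 0) := tendsto_zero_iff_norm_tendsto_zero.mpr h4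
  have h7 := (tendsto_const_nhds (x := x)).sub h6
  simpa using h7

/-- the quadratic estimates for orbit elements -/
lemma orb_sub_z {n m : ℕ} {s : ℝ} {g : H} (h : Orb b n m s g) :
    ‖z b n - g‖ ^ 2 ≤ (lam n - s) * (2 * lam n - s) := by
  have hf := orb_facts b h
  rw [@norm_sub_sq 𝕜, hf.hz, RCLike.ofReal_re]
  nlinarith [hf.hnorm]

lemma orb_phi {n m : ℕ} {s : ℝ} {g : H} (h : Orb b n m s g) :
    ‖z b n - g‖ ^ 2 / 4 ≤ (‖z b n‖ ^ 2 - (lam n - s) / 2) - ‖g‖ ^ 2 := by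
  have hf := orb_facts b h
  have h1 := orb_sub_z b h
  have h2 := hf.hnorm
  have h3 := orb_s_ge b h
  have h4 := hf.s_le
  have h5 := lam_lt_one n
  have h6 : 0 ≤ lam n - s := by linarith
  nlinarith [mul_nonneg h6 (by linarith : (0:ℝ) ≤ 2 - (2 * lam n - s)),
    mul_nonneg h6 (by linarith : (0:ℝ) ≤ s - 239 / 240)]

lemma norm_z_sq_ge (n : ℕ) : lam n ^ 2 ≤ ‖z b n‖ ^ 2 := by
  have h := norm_inner_le_norm (𝕜 := 𝕜) (e0 b) (z b n)
  rw [e0_z, RCLike.norm_ofReal, norm_e0, one_mul, abs_of_pos (lam_pos n)] at h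
  exact pow_le_pow_left₀ (lam_pos n).le h 2

lemma orb_sub_f {n m : ℕ} {s : ℝ} {g : H} (h : Orb b n m s g) : ‖g - f b‖ ^ 2 ≤ 1 / 64 := by
  have hf := orb_facts b h
  have h1 : inner 𝕜 g (f b) = ((‖z b n‖ ^ 2 - (lam n - s) / 2 : ℝ) : 𝕜) := real_inner_comm' hf.hf
  rw [@norm_sub_sq 𝕜, h1, RCLike.ofReal_re, norm_f_sq]
  have h2 := hf.hnorm
  have h3 := orb_s_ge b h
  have h4 := hf.s_le
  have h5 := lam_lt_one n
  have h6 := norm_z_sq_ge b n
  have h7 := lam_ge' n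
  have h8 : 0 ≤ s * (lam n - s) := mul_nonneg hf.s_pos.le (by linarith)
  nlinarith


lemma aux_core {W X δ B t : ℝ} (hW : 99 / 100 ≤ W) (hX1 : X ≤ 1 / 5) (hδ : δ ≤ 1 / 10)
    (hB : δ + B / 2 ≤ X) (hB0 : 0 ≤ B) (ht : t ^ 2 ≤ B / 64) :
    (W - X) ^ 2 + (2 * t) ^ 2 ≤ (W - δ) ^ 2 := by
  have h1 : 0 ≤ (X - δ) * (2 * W - X - δ - 1) :=
    mul_nonneg (by linarith) (by linarith)
  nlinarith

lemma aux_tri {a c d ρ : ℝ} (hρ : 0 ≤ ρ) (h : ρ ≤ a + c) (hd : c ^ 2 / 4 ≤ d) :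
    ρ ^ 2 / 6 + a ^ 2 / 2 ≤ a ^ 2 + d := by
  have h3 : ρ ^ 2 ≤ (a + c) ^ 2 := pow_le_pow_left₀ hρ h 2
  nlinarith [sq_nonneg (a * 2 - c)]

lemma aux_up {a c B : ℝ} (h : B ≤ a + c) (hB : 0 ≤ B) (ha : a ^ 2 ≤ 1 / 100) (hc : c ^ 2 ≤ 1 / 64) :
    B ^ 2 ≤ 1 / 10 := by
  have h3 := pow_le_pow_left₀ hB h 2
  nlinarith [sq_nonneg (a - c)]

lemma orb_Fg {n m : ℕ} {s : ℝ} {g : H} (h : Orb b n m s g) :
    (‖z b n‖ ^ 2 - (lam n - s) / 2) - ‖g‖ ^ 2 ≤ 1 / 20 := by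
  have hf := orb_facts b h
  have h3 : s ^ 2 ≤ ‖g‖ ^ 2 := by
    have := bessel b 0 g
    rw [hf.he0, RCLike.norm_ofReal, sq_abs] at this
    have h2 := sq_nonneg ‖Q b 0 g‖
    linarith
  have h4 := orb_s_ge b h
  have h5 := norm_z_sq_le b n
  have h6 := hf.s_le
  have h7 : (239 / 240 : ℝ) ^ 2 ≤ s ^ 2 := pow_le_pow_left₀ (by norm_num) h4 2
  norm_num at h7 h5 ⊢
  linarith

/-- Rigidity of the image of `f`. -/
lemma rigid_f {V : H →ₗ[𝕜] H} (hV : ∀ x, V (V x) = V x)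
    (hS : ∀ x y, inner 𝕜 (V x) y = inner 𝕜 x (V y)) (hN : ∀ x, N b (V x) ≤ N b x)
    (hclose : ‖V (f b) - f b‖ ≤ 1 / 10) : V (f b) = f b ∨ ∃ n, V (f b) = z b n := by
  by_contra hcon
  push Not at hcon
  obtain ⟨hne, hnz⟩ := hcon
  set w := V (f b) with hw
  have hVw : V w = w := hV _
  have hfw : inner 𝕜 (f b) w = ((‖w‖ ^ 2 : ℝ) : 𝕜) := by
    rw [nsq, ← hVw, ← hS, ← hw, hVw]
  have hwf : inner 𝕜 w (f b) = ((‖w‖ ^ 2 : ℝ) : 𝕜) := real_inner_comm' hfw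
  have hdist : ‖w - f b‖ ^ 2 = ‖f b‖ ^ 2 - ‖w‖ ^ 2 := by
    rw [@norm_sub_sq 𝕜, hwf, RCLike.ofReal_re]; ring
  have hZ : 99 / 100 ≤ ‖w‖ ^ 2 := by
    have := norm_f_sq b
    have h2 : ‖w - f b‖ ^ 2 ≤ 1 / 100 := by nlinarith [norm_nonneg (w - f b)]
    linarith
  have hZ' : ‖w‖ ^ 2 ≤ 1 + 1 / 960 := by
    rw [← norm_f_sq b]; nlinarith [sq_nonneg ‖w - f b‖]
  -- distance to the compact set
  have hcomp : IsCompact (insert (f b) (Set.range (z b))) :=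
    Filter.Tendsto.isCompact_insert_range (P_tendsto b (f b))
  have hnotin : w ∉ insert (f b) (Set.range (z b)) := by
    rintro (h | ⟨n, h⟩)
    · exact hne h
    · exact hnz n h.symm
  obtain ⟨ρ, hρ, hρS⟩ : ∃ ρ > 0, ∀ v ∈ insert (f b) (Set.range (z b)), ρ ≤ ‖w - v‖ := by
    refine ⟨Metric.infDist w (insert (f b) (Set.range (z b))), ?_, ?_⟩
    · exact (hcomp.isClosed.notMem_iff_infDist_pos (Set.insert_nonempty _ _)).mp hnotin
    · intro v hv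
      rw [← dist_eq_norm]
      exact Metric.infDist_le_dist_of_mem hv
  set δ := min (ρ ^ 2 / 6) (1 / 10) with hδ
  have hδ0 : 0 < δ := by positivity
  have hδ1 : δ ≤ ρ ^ 2 / 6 := min_le_left _ _
  have hδ2 : δ ≤ 1 / 10 := min_le_right _ _
  have hV2 : V ((2 : 𝕜) • w - f b) = w := by
    rw [map_sub, map_smul, hVw, ← hw, two_smul]; abel
  have hlow : ‖w‖ ^ 2 ≤ N b ((2 : 𝕜) • w - f b) := by
    have h1 := hN ((2 : 𝕜) • w - f b)
    rw [hV2] at h1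
    refine le_trans ?_ h1
    have h2 := inner_le_nrm (𝕜 := 𝕜) (r := 1 / 2) (fun g hg => norm_G_le b hg)
      (Or.inl rfl : f b ∈ G b) w
    rw [hfw, RCLike.norm_ofReal] at h2
    exact (le_abs_self _).trans h2
  have hx : ‖(2 : 𝕜) • w - f b‖ ^ 2 = ‖f b‖ ^ 2 := by
    rw [@norm_sub_sq 𝕜, inner_smul_left, hwf, norm_smul]
    have h2 : (starRingEnd 𝕜) (2 : 𝕜) * ((‖w‖ ^ 2 : ℝ) : 𝕜) = ((2 * ‖w‖ ^ 2 : ℝ) : 𝕜) := by
      rw [map_ofNat]; push_cast; ring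
    have h3 : ‖(2 : 𝕜)‖ = 2 := by simp
    rw [h2, RCLike.ofReal_re, h3]; ring
  have hup : N b ((2 : 𝕜) • w - f b) ≤ ‖w‖ ^ 2 - δ := by
    refine nrm_le (by linarith) ?_ ?_
    · have h1 := norm_f_sq b
      have h2 := norm_nonneg ((2 : 𝕜) • w - f b)
      nlinarith
    · intro g hg
      rcases hg with rfl | ⟨n, m, s, h⟩ | ⟨i, rfl⟩
      · have h1 : inner 𝕜 (f b) ((2 : 𝕜) • w - f b) = ((‖w‖ ^ 2 - ‖w - f b‖ ^ 2 : ℝ) : 𝕜) := by
          rw [inner_sub_right, inner_smul_right, hfw, ← nsq, hdist]; push_cast; ring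
        rw [h1, RCLike.norm_ofReal]
        have h2 := hρS (f b) (Or.inl rfl)
        have h3 : ρ ^ 2 ≤ ‖w - f b‖ ^ 2 := pow_le_pow_left₀ hρ.le h2 2
        rw [abs_of_nonneg (by rw [hdist, norm_f_sq]; linarith)]
        nlinarith [sq_nonneg ρ]
      · have hf := orb_facts b h
        have hgf : inner 𝕜 g (f b) = ((‖z b n‖ ^ 2 - (lam n - s) / 2 : ℝ) : 𝕜) :=
          real_inner_comm' hf.hf
        set Fg := ‖z b n‖ ^ 2 - (lam n - s) / 2 with hFg
        have hre : RCLike.re (inner 𝕜 g ((2 : 𝕜) • w - f b)) =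
            ‖w‖ ^ 2 - (‖w - g‖ ^ 2 + (Fg - ‖g‖ ^ 2)) := by
          have e1 : ‖w - g‖ ^ 2 = ‖w‖ ^ 2 - 2 * RCLike.re (inner 𝕜 g w) + ‖g‖ ^ 2 := by
            rw [@norm_sub_sq 𝕜, inner_re_symm]
          rw [inner_sub_right, inner_smul_right, hgf, map_sub, RCLike.ofReal_re, e1]
          have e2 : RCLike.re ((2 : 𝕜) * inner 𝕜 g w) = 2 * RCLike.re (inner 𝕜 g w) := by
            simp [RCLike.mul_re]
          rw [e2]; ring
        have him : RCLike.im (inner 𝕜 g ((2 : 𝕜) • w - f b)) =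
            2 * RCLike.im (inner 𝕜 (g - f b) (w - g)) := by
          have e1 : inner 𝕜 (g - f b) (w - g) = inner 𝕜 g w - ((‖g‖ ^ 2 : ℝ) : 𝕜) -
              ((‖w‖ ^ 2 : ℝ) : 𝕜) + ((Fg : ℝ) : 𝕜) := by
            rw [inner_sub_left, inner_sub_right, inner_sub_right, hfw, hf.hf, nsq (𝕜 := 𝕜) g]; ring
          rw [e1, inner_sub_right, inner_smul_right, hgf]
          simp [RCLike.mul_im]
        have hdz := orb_phi b h
        have hgf2 := orb_sub_f b h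
        -- X = ‖w - g‖² + (Fg - ‖g‖²)
        set X := ‖w - g‖ ^ 2 + (Fg - ‖g‖ ^ 2) with hX
        have hXlow : δ + ‖w - g‖ ^ 2 / 2 ≤ X := by
          have h1 := hρS (z b n) (Or.inr ⟨n, rfl⟩)
          have h2 : ‖w - z b n‖ ≤ ‖w - g‖ + ‖z b n - g‖ := by
            calc ‖w - z b n‖ = ‖(w - g) - (z b n - g)‖ := by congr 1; abel
              _ ≤ _ := norm_sub_le _ _
          have h3 := aux_tri hρ.le (h1.trans h2) hdz
          rw [hX]
          linarith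
        have hXup : X ≤ 1 / 5 := by
          have h1 : ‖w - g‖ ^ 2 ≤ 1 / 10 := by
            refine aux_up (a := ‖w - f b‖) (c := ‖g - f b‖) ?_ (norm_nonneg _) ?_ hgf2
            · calc ‖w - g‖ = ‖(w - f b) - (g - f b)‖ := by congr 1; abel
                _ ≤ _ := norm_sub_le _ _
            · have h3 := pow_le_pow_left₀ (norm_nonneg _) hclose 2
              norm_num at h3
              linarith
          have h2 := orb_Fg b h
          rw [hX]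
          linarith
        have hb2 : (RCLike.im (inner 𝕜 (g - f b) (w - g))) ^ 2 ≤ ‖w - g‖ ^ 2 / 64 := by
          have h1 : |RCLike.im (inner 𝕜 (g - f b) (w - g))| ≤ ‖g - f b‖ * ‖w - g‖ :=
            (RCLike.abs_im_le_norm _).trans (norm_inner_le_norm _ _)
          have h2 := pow_le_pow_left₀ (abs_nonneg _) h1 2
          rw [sq_abs, mul_pow] at h2
          have h3 := mul_le_mul_of_nonneg_right hgf2 (sq_nonneg ‖w - g‖)
          linarith
        have hsq : ‖inner 𝕜 g ((2 : 𝕜) • w - f b)‖ ^ 2 ≤ (‖w‖ ^ 2 - δ) ^ 2 := by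
          rw [RCLike.norm_sq_eq_def, hre, him]
          have h9 := aux_core hZ hXup hδ2 hXlow (sq_nonneg _) hb2
          linarith
        exact le_of_sq_le_sq hsq (by linarith)
      · rw [inner_smul_left, RCLike.conj_ofReal, norm_mul, RCLike.norm_ofReal,
          abs_of_pos (by norm_num : (0 : ℝ) < 3 / 5)]
        have h1 : (2 : 𝕜) • w - f b = f b + (2 : 𝕜) • (w - f b) := by
          rw [smul_sub, two_smul 𝕜 (f b)]; abel
        have h2 : ‖inner 𝕜 (e b i) ((2 : 𝕜) • w - f b)‖ ≤ 1 / 32 + 2 * (1 / 10) := by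
          rw [h1, inner_add_right, inner_smul_right, e_f]
          refine (norm_add_le _ _).trans (add_le_add ?_ ?_)
          · rw [RCLike.norm_ofReal, abs_of_pos (phi_pos i), phi]
            linarith [tau_le i]
          · rw [norm_mul]
            have h3 : ‖(2 : 𝕜)‖ = 2 := by simp
            rw [h3]
            have h4 := norm_inner_le_norm (𝕜 := 𝕜) (e b i) (w - f b)
            rw [norm_e, one_mul] at h4
            linarith
        nlinarith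
  linarith

end Concrete

end Pool.Agent.Lib.Helper29.PiBasis
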