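import Pool.Agent.Lib.Helper29.PiBasis.E

set_option autoImplicit false

open scoped InnerProductSpace
open Filter Topology

namespace Pool.Agent.Lib.Helper29.PiBasis

section Concrete

variable {𝕜 : Type*} [RCLike 𝕜] {H : Type*} [NormedAddCommGroup H] [InnerProductSpace 𝕜 H]
variable (b : HilbertBasis ℕ 𝕜 H)

lemma G_bd : ∀ g ∈ G b, ‖g‖ ≤ 2 := fun _ hg => norm_G_le b hg

lemma inner_near {g x y : H} {A δ C : ℝ} (hA : ‖inner 𝕜 g x‖ ≤ A) (hg : ‖g‖ ≤ C)
    (hxy : ‖y - x‖ ≤ δ) (hC : 0 ≤ C) : ‖inner 𝕜 g y‖ ≤ A + C * δ := by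
  have h1 : y = x + (y - x) := by abel
  rw [h1, inner_add_right]
  refine (norm_add_le _ _).trans (add_le_add hA ?_)
  exact (norm_inner_le_norm _ _).trans (mul_le_mul hg hxy (norm_nonneg _) hC)

lemma norm_f_le : ‖f b‖ ≤ 101 / 100 := by
  have := norm_f_sq b
  nlinarith [norm_nonneg (f b)]

lemma orb_norm_le {n m : ℕ} {s : ℝ} {g : H} (h : Orb b n m s g) : ‖g‖ ≤ 101 / 100 := by
  have := orb_norm_sq b h
  nlinarith [norm_nonneg g]

/-- orbit elements are close to multiples of `e0` -/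
lemma orb_tail {n m : ℕ} {s : ℝ} {g : H} (h : Orb b n m s g) : ‖g - (s : 𝕜) • e0 b‖ ≤ 1 / 10 := by
  have hf := orb_facts b h
  have h0 : inner 𝕜 g (e0 b) = (s : 𝕜) := real_inner_comm' hf.he0
  have h1 : ‖g - (s : 𝕜) • e0 b‖ ^ 2 = ‖g‖ ^ 2 - s ^ 2 := by
    rw [@norm_sub_sq 𝕜, inner_smul_right, h0, norm_smul, norm_e0, RCLike.norm_ofReal, mul_one, sq_abs,
      RCLike.re_ofReal_mul, RCLike.ofReal_re]
    ring
  have h2 := orb_perp b h
  nlinarith [norm_nonneg (g - (s : 𝕜) • e0 b)]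

lemma orb_inner_perp {n m : ℕ} {s : ℝ} {g : H} (h : Orb b n m s g) {y : H}
    (hy : inner 𝕜 (e0 b) y = (0 : 𝕜)) : ‖inner 𝕜 g y‖ ≤ 1 / 10 * ‖y‖ := by
  have h1 : inner 𝕜 g y = inner 𝕜 (g - (s : 𝕜) • e0 b) y := by
    rw [inner_sub_left, inner_smul_left, hy, mul_zero, sub_zero]
  rw [h1]
  exact (norm_inner_le_norm _ _).trans (mul_le_mul_of_nonneg_right (orb_tail b h) (norm_nonneg _))

lemma norm_sq_V {V : H →ₗ[𝕜] H} (hV : ∀ x, V (V x) = V x)
    (hS : ∀ x y, inner 𝕜 (V x) y = inner 𝕜 x (V y)) (x : H) :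
    inner 𝕜 x (V x) = ((‖V x‖ ^ 2 : ℝ) : 𝕜) := by
  rw [nsq, hS, hV]

lemma dist_sq_V {V : H →ₗ[𝕜] H} (hV : ∀ x, V (V x) = V x)
    (hS : ∀ x y, inner 𝕜 (V x) y = inner 𝕜 x (V y)) (x : H) :
    ‖V x - x‖ ^ 2 = ‖x‖ ^ 2 - ‖V x‖ ^ 2 := by
  rw [@norm_sub_sq 𝕜, real_inner_comm' (norm_sq_V hV hS x), RCLike.ofReal_re]; ring

/-- Step (3'). -/
lemma fix_site_zero {V : H →ₗ[𝕜] H} (hV : ∀ x, V (V x) = V x)
    (hS : ∀ x y, inner 𝕜 (V x) y = inner 𝕜 x (V y)) (hN : ∀ x, N b (V x) ≤ N b x)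
    (hclose : ‖V (e b 0) - e b 0‖ ≤ 1 / 10) : V (e b 0) = e b 0 := by
  have hW1 := dist_sq_V hV hS (e b 0)
  rw [norm_e] at hW1
  have hW2 : ‖V (e b 0) - e b 0‖ ^ 2 ≤ (1 / 10) ^ 2 := pow_le_pow_left₀ (norm_nonneg _) hclose 2
  have hW3 : 99 / 100 ≤ ‖V (e b 0)‖ ^ 2 := by norm_num at hW1 hW2 ⊢; linarith
  have hW4 : ‖V (e b 0)‖ ≤ 1 := by
    have h1 := sq_nonneg ‖V (e b 0) - e b 0‖
    nlinarith [norm_nonneg (V (e b 0))]
  have key : V (((3 / 5 : ℝ) : 𝕜) • e b 0) = ((3 / 5 : ℝ) : 𝕜) • e b 0 := by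
    refine fixed_of_exposed (r := 1 / 2) (C := 2) (G := G b) (y := V (e b 0))
      (c := 3 / 5 * ‖V (e b 0)‖ ^ 2) (ε := 1 / 20) (η := 1) (by norm_num) (G_bd b) hV hS hN
      (hV _) (Or.inr (Or.inr ⟨0, rfl⟩)) (by norm_num) one_pos (by linarith) ?_ (by linarith) ?_
    · rw [inner_smul_left, RCLike.conj_ofReal, norm_sq_V hV hS]; push_cast; ring
    · intro g hg
      rcases hg with rfl | ⟨n, m, s, h⟩ | ⟨i, rfl⟩
      · left
        have h1 : ‖inner 𝕜 (f b) (e b 0)‖ ≤ 1 / 32 := by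
          rw [f_e, RCLike.norm_ofReal, abs_of_pos (phi_pos 0), phi]; linarith [tau_le 0]
        have h2 := inner_near h1 (norm_f_le b) hclose (by norm_num)
        linarith
      · left
        have h1 := orb_inner_perp b h (y := e b 0) (by simp)
        rw [norm_e] at h1
        have h2 := inner_near h1 (orb_norm_le b h) hclose (by norm_num)
        linarith
      · rcases eq_or_ne i 0 with rfl | hi
        · right
          refine ⟨3 / 5 * ‖V (e b 0)‖ ^ 2, by positivity, ?_, by simp⟩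
          rw [inner_smul_left, RCLike.conj_ofReal, norm_sq_V hV hS]; push_cast; ring
        · left
          have h1 : ‖inner 𝕜 (((3 / 5 : ℝ) : 𝕜) • e b i) (e b 0)‖ ≤ 0 := by
            rw [inner_smul_left, e_e_ne b hi]; simp
          have h3 : ‖((3 / 5 : ℝ) : 𝕜) • e b i‖ ≤ 1 := by
            rw [norm_smul, norm_e, RCLike.norm_ofReal, abs_of_pos (by norm_num)]; norm_num
          have h2 := inner_near h1 h3 hclose (by norm_num)
          linarith
  rw [map_smul] at key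
  exact smul_right_injective H (by
    have : ((3 / 5 : ℝ) : 𝕜) ≠ 0 := by
      rw [Ne, RCLike.ofReal_eq_zero]; norm_num
    exact this) key

lemma tau_zero : tau 0 = 1 / 16 := by unfold tau; norm_num
lemma mu_zero : mu 0 = 256 / 257 := by unfold mu; rw [tau_zero]; norm_num
lemma lam_zero : lam 0 = 513 / 514 := by unfold lam; rw [mu_zero]; norm_num
lemma phi_zero : phi 0 = 1 / 32 := by unfold phi; rw [tau_zero]; norm_num

lemma z_zero : z b 0 = (lam 0 : 𝕜) • gv b 0 := by rw [z_eq]; simp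

lemma z_f (n : ℕ) : inner 𝕜 (z b n) (f b) = ((‖z b n‖ ^ 2 : ℝ) : 𝕜) := real_inner_comm' (f_z b n)

lemma norm_z_zero : ‖z b 0‖ ^ 2 = 513 / 514 * (513 / 512) := by
  have h : ((‖z b 0‖ ^ 2 : ℝ) : 𝕜) = ((513 / 514 * (513 / 512) : ℝ) : 𝕜) := by
    rw [← z_f, z_inner, e0_f, e_f, lam_zero, tau_zero, phi_zero]
    simp only [Finset.range_zero, Finset.sum_empty, zero_add]
    push_cast
    norm_num
  exact RCLike.ofReal_injective h

/-- Step (4). -/
lemma fix_z_zero {V : H →ₗ[𝕜] H} (hV : ∀ x, V (V x) = V x)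
    (hS : ∀ x y, inner 𝕜 (V x) y = inner 𝕜 x (V y)) (hN : ∀ x, N b (V x) ≤ N b x)
    (hf : V (f b) = f b) (he : V (e b 0) = e b 0) : V (z b 0) = z b 0 := by
  have hz0 : inner 𝕜 (z b 0) (e b 0) = ((lam 0 * tau 0 : ℝ) : 𝕜) := real_inner_comm' (e_z_self b 0)
  refine fixed_of_exposed (r := 1 / 2) (C := 2) (G := G b) (y := f b + ((1 / 2 : ℝ) : 𝕜) • e b 0)
      (c := ‖z b 0‖ ^ 2 + lam 0 * tau 0 / 2) (ε := 1 / 100) (η := 1 / 4) (by norm_num) (G_bd b) hV hS hN
      ?_ (Or.inr (Or.inl ⟨_, _, _, Orb.base⟩)) (by norm_num) (by norm_num) ?_ ?_ ?_ ?_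
  · rw [map_add, map_smul, hf, he]
  · rw [norm_z_zero, lam_zero, tau_zero]; norm_num
  · rw [inner_add_right, inner_smul_right, z_f, hz0]; push_cast; ring
  · have h1 : ‖f b + ((1 / 2 : ℝ) : 𝕜) • e b 0‖ ≤ ‖f b‖ + 1 / 2 := by
      refine (norm_add_le _ _).trans ?_
      rw [norm_smul, norm_e, RCLike.norm_ofReal, abs_of_pos (by norm_num), mul_one]
    have h2 := norm_f_le b
    rw [norm_z_zero, lam_zero, tau_zero]
    norm_num at h1 h2 ⊢
    linarith
  · intro g hg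
    rcases hg with rfl | ⟨n, m, s, h⟩ | ⟨i, rfl⟩
    · left
      have h1 : inner 𝕜 (f b) (f b + ((1 / 2 : ℝ) : 𝕜) • e b 0) =
          ((1 + 1 / 960 + 1 / 64 : ℝ) : 𝕜) := by
        rw [inner_add_right, inner_smul_right, f_e, ← nsq, norm_f_sq, phi_zero]; push_cast; ring
      rw [h1, RCLike.norm_ofReal, abs_of_pos (by norm_num), norm_z_zero, lam_zero, tau_zero]
      norm_num
    · have hof := orb_facts b h
      have hgf : inner 𝕜 g (f b) = ((‖z b n‖ ^ 2 - (lam n - s) / 2 : ℝ) : 𝕜) :=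
        real_inner_comm' hof.hf
      rcases Nat.eq_zero_or_pos n with rfl | hn
      · right
        have h0 : inner 𝕜 g (e b 0) = ((lam 0 * tau 0 : ℝ) : 𝕜) := real_inner_comm' hof.he_self
        have h3 := orb_s_ge b h
        have h4 := hof.s_le
        refine ⟨‖z b 0‖ ^ 2 - (lam 0 - s) / 2 + lam 0 * tau 0 / 2, ?_, ?_, ?_⟩
        · rw [norm_z_zero]
          rw [lam_zero] at h4 ⊢
          rw [tau_zero]
          norm_num
          linarith
        · rw [inner_add_right, inner_smul_right, hgf, h0]; push_cast; ring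
        · have h5 := orb_sub_z b h
          have h6 : (lam 0 - s) * (2 * lam 0 - s) ≤ (lam 0 - s) * 2 := by
            apply mul_le_mul_of_nonneg_left _ (by linarith)
            have := lam_lt_one 0
            linarith
          linarith
      · left
        have h0 : inner 𝕜 g (e b 0) = (phi 0 : 𝕜) := real_inner_comm' (hof.he_lt 0 hn)
        have h1 : inner 𝕜 g (f b + ((1 / 2 : ℝ) : 𝕜) • e b 0) =
            ((‖z b n‖ ^ 2 - (lam n - s) / 2 + 1 / 64 : ℝ) : 𝕜) := by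
          rw [inner_add_right, inner_smul_right, hgf, h0, phi_zero]; push_cast; ring
        have h2 := norm_z_sq_le b n
        have h3 := orb_s_ge b h
        have h4 := hof.s_le
        have h5 := lam_lt_one n
        have h6 := norm_z_sq_ge b n
        have h7 := lam_ge' n
        have h8 : (511 / 512 : ℝ) ^ 2 ≤ lam n ^ 2 := pow_le_pow_left₀ (by norm_num) h7 2
        rw [h1, RCLike.norm_ofReal, abs_of_nonneg, norm_z_zero, lam_zero, tau_zero]
        · norm_num at h2 ⊢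
          linarith
        · norm_num at h8
          linarith
    · left
      have h1 : ‖inner 𝕜 (e b i) (f b + ((1 / 2 : ℝ) : 𝕜) • e b 0)‖ ≤ 1 / 32 + 1 / 2 := by
        rw [inner_add_right, inner_smul_right, e_f]
        refine (norm_add_le _ _).trans (add_le_add ?_ ?_)
        · rw [RCLike.norm_ofReal, abs_of_pos (phi_pos i), phi]; linarith [tau_le i]
        · rw [norm_mul, RCLike.norm_ofReal, abs_of_pos (by norm_num)]
          have h2 := norm_inner_le_norm (𝕜 := 𝕜) (e b i) (e b 0)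
          rw [norm_e, norm_e] at h2
          linarith
      rw [inner_smul_left, RCLike.conj_ofReal, norm_mul, RCLike.norm_ofReal,
        abs_of_pos (by norm_num : (0 : ℝ) < 3 / 5), norm_z_zero, lam_zero, tau_zero]
      norm_num at h1 ⊢
      linarith

end Concrete

end Pool.Agent.Lib.Helper29.PiBasis
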