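import Pool.Agent.Lib.Helper29.PiBasis.F

set_option autoImplicit false

open scoped InnerProductSpace
open Filter Topology

namespace Pool.Agent.Lib.Helper29.PiBasis

section Concrete

variable {𝕜 : Type*} [RCLike 𝕜] {H : Type*} [NormedAddCommGroup H] [InnerProductSpace 𝕜 H]
variable (b : HilbertBasis ℕ 𝕜 H)

/-- tail of `f` -/
noncomputable def yk (k : ℕ) : H := f b - e0 b - Q b k (f b)

lemma Q_f (k : ℕ) : Q b k (f b) = ∑ i ∈ Finset.range k, (phi i : 𝕜) • e b i :=
  Finset.sum_congr rfl fun i _ => by rw [e_f]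

lemma e0_yk (k : ℕ) : inner 𝕜 (e0 b) (yk b k) = (0 : 𝕜) := by
  unfold yk
  rw [inner_sub_right, inner_sub_right, Q_f, inner_sum]
  simp [inner_smul_right]

lemma e_yk_lt {i k : ℕ} (h : i < k) : inner 𝕜 (e b i) (yk b k) = (0 : 𝕜) := by
  unfold yk
  rw [inner_sub_right, inner_sub_right, Q_f, inner_sum_e, if_pos h, e_f, e_e0]
  ring

lemma e_yk_ge {i k : ℕ} (h : k ≤ i) : inner 𝕜 (e b i) (yk b k) = (phi i : 𝕜) := by
  unfold yk
  rw [inner_sub_right, inner_sub_right, Q_f, inner_sum_e, if_neg (by omega), e_f, e_e0]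
  ring

lemma sum_phi_sq (k : ℕ) : 1 / 960 - ∑ i ∈ Finset.range k, phi i ^ 2 = 16 / 15 * phi k ^ 2 := by
  have h2 : ∀ n, phi n ^ 2 = 1 / 1024 * (1 / 16) ^ n := by
    intro n
    unfold phi tau
    rw [div_pow, ← pow_mul, show (n + 2) * 2 = 2 * n + 4 by ring, pow_add, pow_mul]; norm_num; ring
  induction k with
  | zero => rw [h2]; norm_num
  | succ k ih =>
    rw [Finset.sum_range_succ, h2 (k + 1), h2 k, pow_succ ((1 : ℝ) / 16) k]
    rw [h2 k] at ih
    linarith

lemma f_yk (k : ℕ) : inner 𝕜 (f b) (yk b k) = ((16 / 15 * phi k ^ 2 : ℝ) : 𝕜) := by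
  unfold yk
  rw [inner_sub_right, inner_sub_right, f_e0, ← nsq, norm_f_sq, Q_f, inner_sum, ← sum_phi_sq]
  have : ∀ i ∈ Finset.range k, inner 𝕜 (f b) ((phi i : 𝕜) • e b i) = ((phi i ^ 2 : ℝ) : 𝕜) := by
    intro i _
    rw [inner_smul_right, f_e]; push_cast; ring
  rw [Finset.sum_congr rfl this, ← RCLike.ofReal_sum]
  push_cast; ring

lemma norm_yk_sq (k : ℕ) : ‖yk b k‖ ^ 2 = 16 / 15 * phi k ^ 2 := by
  have h : ((‖yk b k‖ ^ 2 : ℝ) : 𝕜) = ((16 / 15 * phi k ^ 2 : ℝ) : 𝕜) := by
    rw [nsq, ← f_yk b k]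
    have h1 : f b = yk b k + (e0 b + Q b k (f b)) := by unfold yk; abel
    conv_rhs => rw [h1, inner_add_left, inner_add_left, e0_yk, zero_add]
    have h2 : inner 𝕜 (Q b k (f b)) (yk b k) = (0 : 𝕜) := by
      rw [Q, sum_inner]
      refine Finset.sum_eq_zero fun i hi => ?_
      rw [inner_smul_left, e_yk_lt b (Finset.mem_range.mp hi), mul_zero]
    rw [h2, add_zero]
  exact RCLike.ofReal_injective h

lemma norm_yk_le (k : ℕ) : ‖yk b k‖ ≤ 11 / 10 * phi k := by
  have h := norm_yk_sq b k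
  have h1 := phi_pos k
  nlinarith [norm_nonneg (yk b k)]

lemma phi_anti {k i : ℕ} (h : k < i) : phi i ≤ phi k / 4 := by
  have h1 : tau i ≤ tau (k + 1) := tau_anti h
  rw [tau_succ] at h1
  unfold phi
  linarith

/-- Step (5). -/
lemma fix_all {V : H →ₗ[𝕜] H} (hV : ∀ x, V (V x) = V x)
    (hS : ∀ x y, inner 𝕜 (V x) y = inner 𝕜 x (V y)) (hN : ∀ x, N b (V x) ≤ N b x)
    (hf : V (f b) = f b) (he : V (e b 0) = e b 0) (k : ℕ) : V (e b k) = e b k := by
  have hz := fix_z_zero b hV hS hN hf he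
  have hlam : (lam 0 : 𝕜) ≠ 0 := by
    rw [Ne, RCLike.ofReal_eq_zero]; exact (lam_pos 0).ne'
  have hg : V (gv b 0) = gv b 0 := by
    rw [z_zero, map_smul] at hz
    exact smul_right_injective H hlam hz
  have he0 : V (e0 b) = e0 b := by
    have h1 : e0 b = gv b 0 - (tau 0 : 𝕜) • e b 0 := by unfold gv; abel
    rw [h1, map_sub, map_smul, hg, he]
  induction k using Nat.strong_induction_on with
  | _ k ih =>
    have hy : V (yk b k) = yk b k := by
      unfold yk
      rw [map_sub, map_sub, hf, he0, Q_f, map_sum]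
      congr 1
      refine Finset.sum_congr rfl fun i hi => ?_
      rw [map_smul, ih i (Finset.mem_range.mp hi)]
    have hφ := phi_pos k
    have hny := norm_yk_le b k
    have key : V (((3 / 5 : ℝ) : 𝕜) • e b k) = ((3 / 5 : ℝ) : 𝕜) • e b k := by
      refine fixed_of_exposed (r := 1 / 2) (C := 2) (G := G b) (y := yk b k)
        (c := 3 / 5 * phi k) (ε := phi k / 10) (η := 1) (by norm_num) (G_bd b) hV hS hN
        hy (Or.inr (Or.inr ⟨k, rfl⟩)) (by positivity) one_pos (by positivity) ?_ ?_ ?_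
      · rw [inner_smul_left, RCLike.conj_ofReal, e_yk_ge b le_rfl]; push_cast; ring
      · linarith
      · intro g hg
        rcases hg with rfl | ⟨n, m, s, h⟩ | ⟨i, rfl⟩
        · left
          rw [f_yk, RCLike.norm_ofReal, abs_of_nonneg (by positivity)]
          have h1 : phi k ≤ 1 / 32 := by unfold phi; linarith [tau_le k]
          nlinarith
        · left
          have h1 := orb_inner_perp b h (e0_yk b k)
          linarith
        · rcases lt_trichotomy i k with hi | hi | hi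
          · left
            rw [inner_smul_left, e_yk_lt b hi, mul_zero, norm_zero]
            linarith
          · right
            subst hi
            refine ⟨3 / 5 * phi i, by positivity, ?_, by simp⟩
            rw [inner_smul_left, RCLike.conj_ofReal, e_yk_ge b le_rfl]; push_cast; ring
          · left
            rw [inner_smul_left, RCLike.conj_ofReal, e_yk_ge b hi.le, norm_mul, RCLike.norm_ofReal,
              RCLike.norm_ofReal, abs_of_pos (phi_pos i), abs_of_pos (by norm_num : (0 : ℝ) < 3 / 5)]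
            have := phi_anti hi
            linarith
    rw [map_smul] at key
    exact smul_right_injective H (by
      have : ((3 / 5 : ℝ) : 𝕜) ≠ 0 := by
        rw [Ne, RCLike.ofReal_eq_zero]; norm_num
      exact this) key

/-- Step (1). -/
lemma symm_of_close {V : H →ₗ[𝕜] H} (hV : ∀ x, V (V x) = V x) (hN : ∀ x, N b (V x) ≤ N b x)
    (hclose : ‖V (e b 0 + e b 1) - (e b 0 + e b 1)‖ ≤ 1 / 50) :
    ∀ x y, inner 𝕜 (V x) y = inner 𝕜 x (V y) := by
  set w := e b 0 + e b 1 with hw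
  have hnw : ‖w‖ ^ 2 = 2 := by
    rw [hw, @norm_add_sq 𝕜, norm_e, norm_e, e_e_ne b (by norm_num)]; norm_num
  have hnw' : 141 / 100 ≤ ‖w‖ := by nlinarith [norm_nonneg w]
  have hnw'' : ‖w‖ ≤ 142 / 100 := by nlinarith [norm_nonneg w]
  refine symm_of_contractive (r := 1 / 2) (G := G b) (by norm_num) hV hN (x₁ := V w) (hV w)
    (ε := 1 / 50) (by norm_num) ?_
  intro x hx g hg
  have hxw : ‖x - w‖ ≤ 1 / 25 := by
    calc ‖x - w‖ = ‖(x - V w) + (V w - w)‖ := by congr 1; abel
      _ ≤ ‖x - V w‖ + ‖V w - w‖ := norm_add_le _ _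
      _ ≤ 1 / 25 := by linarith
  have hlow : 137 / 100 ≤ ‖x‖ := by
    have h1 : ‖w‖ ≤ ‖x‖ + ‖x - w‖ := by
      calc ‖w‖ = ‖x - (x - w)‖ := by congr 1; abel
        _ ≤ _ := norm_sub_le _ _
    linarith
  rcases hg with rfl | ⟨n, m, s, h⟩ | ⟨i, rfl⟩
  · have h1 : ‖inner 𝕜 (f b) w‖ ≤ 1 / 32 + 1 / 32 := by
      rw [hw, inner_add_right, f_e, f_e]
      refine (norm_add_le _ _).trans (add_le_add ?_ ?_)
      · rw [RCLike.norm_ofReal, abs_of_pos (phi_pos _), phi]; linarith [tau_le 0]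
      · rw [RCLike.norm_ofReal, abs_of_pos (phi_pos _), phi]; linarith [tau_le 1]
    have h2 := inner_near h1 (norm_f_le b) hxw (by norm_num)
    linarith
  · have h1 := orb_inner_perp b h (y := w) (by rw [hw, inner_add_right]; simp)
    have h2 := inner_near h1 (orb_norm_le b h) hxw (by norm_num)
    linarith
  · have h1 : ‖inner 𝕜 (((3 / 5 : ℝ) : 𝕜) • e b i) w‖ ≤ 3 / 5 := by
      rw [inner_smul_left, RCLike.conj_ofReal, norm_mul, RCLike.norm_ofReal,
        abs_of_pos (by norm_num : (0 : ℝ) < 3 / 5), hw, inner_add_right]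
      have h2 : ‖inner 𝕜 (e b i) (e b 0) + inner 𝕜 (e b i) (e b 1)‖ ≤ 1 := by
        by_cases h0 : i = 0
        · subst h0; rw [e_e_ne b (by norm_num : (0 : ℕ) ≠ 1)]; simp
        · rw [e_e_ne b h0, zero_add]
          have h3 := norm_inner_le_norm (𝕜 := 𝕜) (e b i) (e b 1)
          rw [norm_e, norm_e] at h3
          linarith
      linarith
    have h3 : ‖((3 / 5 : ℝ) : 𝕜) • e b i‖ ≤ 3 / 5 := by
      rw [norm_smul, norm_e, RCLike.norm_ofReal, abs_of_pos (by norm_num)]; norm_num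
    have h2 := inner_near h1 h3 hxw (by norm_num)
    linarith

lemma f_ne_z (n : ℕ) : f b ≠ z b n := by
  intro h
  have h1 := e_f b (n + 1)
  rw [h, e_z_gt b (Nat.lt_succ_self n)] at h1
  have h2 := phi_pos (n + 1)
  have h3 : phi (n + 1) = 0 := by
    have := h1.symm
    rwa [RCLike.ofReal_eq_zero] at this
  linarith

/-- Steps (2), (3). -/
lemma exists_fix_f {V : ℕ → H →ₗ[𝕜] H} (hV : ∀ n x, V n (V n x) = V n x)
    (hN : ∀ n x, N b (V n x) ≤ N b x) (hnest : ∀ m n, m ≤ n → ∀ x, V n (V m x) = V m x)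
    (hconv : ∀ x, Tendsto (fun n => V n x) atTop (𝓝 x)) :
    ∃ n0, ∀ n, n0 ≤ n → V n (f b) = f b ∧ (∀ x y, inner 𝕜 (V n x) y = inner 𝕜 x (V n y)) := by
  have hclose : ∀ x : H, ∀ ε : ℝ, 0 < ε → ∃ n0, ∀ n, n0 ≤ n → ‖V n x - x‖ ≤ ε := by
    intro x ε hε
    obtain ⟨n0, h⟩ := Metric.tendsto_atTop.mp (hconv x) ε hε
    exact ⟨n0, fun n hn => by have := h n hn; rw [dist_eq_norm] at this; exact this.le⟩
  obtain ⟨n1, hn1⟩ := hclose (e b 0 + e b 1) (1 / 50) (by norm_num)
  obtain ⟨n2, hn2⟩ := hclose (f b) (1 / 10) (by norm_num)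
  set n3 := max n1 n2 with hn3
  have hS : ∀ n, n3 ≤ n → ∀ x y, inner 𝕜 (V n x) y = inner 𝕜 x (V n y) := fun n hn =>
    symm_of_close b (hV n) (hN n) (hn1 n ((le_max_left _ _).trans hn))
  have halt : ∀ n, n3 ≤ n → V n (f b) = f b ∨ ∃ j, V n (f b) = z b j := fun n hn =>
    rigid_f b (hV n) (hS n hn) (hN n) (hn2 n ((le_max_right _ _).trans hn))
  by_cases hex : ∃ n, n3 ≤ n ∧ V n (f b) = f b
  · obtain ⟨n0, hn0, hf0⟩ := hex
    refine ⟨n0, fun n hn => ⟨?_, hS n (hn0.trans hn)⟩⟩
    have := hnest n0 n hn (f b)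
    rwa [hf0] at this
  · exfalso
    push Not at hex
    have halt' : ∀ n, n3 ≤ n → ∃ j, V n (f b) = z b j := fun n hn =>
      (halt n hn).resolve_left (hex n hn)
    obtain ⟨j, hj⟩ := halt' n3 le_rfl
    -- there is `n ≥ n3` with index `> j`
    have hbig : ∃ n, n3 ≤ n ∧ ∃ j', j < j' ∧ V n (f b) = z b j' := by
      by_contra hcon
      push Not at hcon
      have hmem : ∀ n, n3 ≤ n → V n (f b) ∈ (z b '' (Finset.range (j + 1) : Set ℕ)) := by
        intro n hn
        obtain ⟨j', hj'⟩ := halt' n hn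
        refine ⟨j', ?_, hj'.symm⟩
        by_contra hc
        have : j < j' := by
          by_contra hlt
          exact hc (by simpa using (by omega : j' < j + 1))
        exact hcon n hn j' this hj'
      have hfin : (z b '' (Finset.range (j + 1) : Set ℕ)).Finite :=
        (Finset.finite_toSet _).image _
      have hcl := hfin.isClosed
      have : f b ∈ (z b '' (Finset.range (j + 1) : Set ℕ)) :=
        hcl.mem_of_tendsto (hconv (f b)) (eventually_atTop.mpr ⟨n3, hmem⟩)
      obtain ⟨i, _, hi⟩ := this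
      exact f_ne_z b i hi.symm
    obtain ⟨n, hn, j', hjj', hj'⟩ := hbig
    have hfix : V n (z b j) = z b j := by
      have := hnest n3 n hn (f b)
      rwa [hj] at this
    have h1 := z_f_sub_z b hjj'
    rw [← hj', inner_sub_right, ← hS n hn, hfix, sub_self] at h1
    have h2 : lam j * (1 - lam j') = 0 := by
      have := h1.symm
      rwa [RCLike.ofReal_eq_zero] at this
    have h3 : 0 < lam j * (1 - lam j') := mul_pos (lam_pos j) (by linarith [lam_lt_one j'])
    linarith

/-- There is no nested approximating sequence of `N`-contractive finite rank projections. -/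
theorem no_nested {V : ℕ → H →ₗ[𝕜] H} (hV : ∀ n x, V n (V n x) = V n x)
    (hN : ∀ n x, N b (V n x) ≤ N b x) (hnest : ∀ m n, m ≤ n → ∀ x, V n (V m x) = V m x)
    (hconv : ∀ x, Tendsto (fun n => V n x) atTop (𝓝 x))
    (hfin : ∀ n, FiniteDimensional 𝕜 (LinearMap.range (V n))) : False := by
  obtain ⟨n0, hn0⟩ := exists_fix_f b hV hN hnest hconv
  obtain ⟨n1, hn1⟩ := Metric.tendsto_atTop.mp (hconv (e b 0)) (1 / 10) (by norm_num)
  set n := max n0 n1 with hn
  obtain ⟨hf, hS⟩ := hn0 n (le_max_left _ _)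
  have hc : ‖V n (e b 0) - e b 0‖ ≤ 1 / 10 := by
    have := hn1 n (le_max_right _ _)
    rw [dist_eq_norm] at this
    exact this.le
  have he := fix_site_zero b (hV n) hS (hN n) hc
  have hall := fix_all b (hV n) hS (hN n) hf he
  have hlin : LinearIndependent 𝕜 (e b) := b.orthonormal.linearIndependent.comp
    (fun n : ℕ => n + 1) (fun a b h => by simpa using h)
  have hlin2 : LinearIndependent 𝕜 (fun k => (⟨e b k, ⟨e b k, hall k⟩⟩ : LinearMap.range (V n))) := by
    refine LinearIndependent.of_comp (LinearMap.range (V n)).subtype ?_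
    exact hlin
  have := hfin n
  exact (Set.infinite_univ (α := ℕ)).not_finite (by
    have := hlin2.finite
    exact Set.finite_univ)

end Concrete

end Pool.Agent.Lib.Helper29.PiBasis
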