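import Pool.Agent.Lib.Helper29.PiBasis.F2

set_option autoImplicit false

open scoped InnerProductSpace
open Filter Topology

namespace Pool.Agent.Lib.Helper29.PiBasis

universe u

/-- the standard Hilbert space -/
abbrev L2 (𝕜 : Type u) [RCLike 𝕜] : Type u := lp (fun _ : ℕ => 𝕜) 2

/-- its standard Hilbert basis -/
noncomputable def stdB (𝕜 : Type u) [RCLike 𝕜] : HilbertBasis ℕ 𝕜 (L2 𝕜) :=
  HilbertBasis.ofRepr (LinearIsometryEquiv.refl 𝕜 _)

/-- type synonym carrying the new norm -/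
def Sp (𝕜 : Type u) [RCLike 𝕜] : Type u := L2 𝕜

variable (𝕜 : Type u) [RCLike 𝕜]

noncomputable instance : AddCommGroup (Sp 𝕜) := inferInstanceAs (AddCommGroup (L2 𝕜))
noncomputable instance : Module 𝕜 (Sp 𝕜) := inferInstanceAs (Module 𝕜 (L2 𝕜))

/-- identity map -/
noncomputable def toL2 : Sp 𝕜 ≃ₗ[𝕜] L2 𝕜 := LinearEquiv.refl 𝕜 (L2 𝕜)

/-- the new norm -/
noncomputable def spNorm : AddGroupNorm (Sp 𝕜) where
  toFun x := N (stdB 𝕜) (toL2 𝕜 x)
  map_zero' := by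
    rw [map_zero]
    exact nrm_zero (by norm_num)
  add_le' x y := by
    rw [map_add]
    exact nrm_add (by norm_num) (G_bd (stdB 𝕜)) _ _
  neg' x := by
    rw [map_neg]
    exact nrm_neg (by norm_num) (G_bd (stdB 𝕜)) _
  eq_zero_of_map_eq_zero' x hx := by
    have h1 : (1 / 2 : ℝ) * ‖toL2 𝕜 x‖ ≤ 0 := by
      rw [← hx]; exact r_le_nrm _
    have h2 : ‖toL2 𝕜 x‖ = 0 := le_antisymm (by linarith) (norm_nonneg _)
    have h3 : toL2 𝕜 x = 0 := norm_eq_zero.mp h2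
    exact (toL2 𝕜).map_eq_zero_iff.mp h3

noncomputable instance : NormedAddCommGroup (Sp 𝕜) := (spNorm 𝕜).toNormedAddCommGroup

lemma sp_norm_def (x : Sp 𝕜) : ‖x‖ = N (stdB 𝕜) (toL2 𝕜 x) := rfl

noncomputable instance : NormedSpace 𝕜 (Sp 𝕜) where
  norm_smul_le c x := by
    rw [sp_norm_def, sp_norm_def, map_smul]
    exact nrm_smul_le (by norm_num) (G_bd (stdB 𝕜)) _ _

lemma norm_toL2_le (x : Sp 𝕜) : ‖toL2 𝕜 x‖ ≤ 2 * ‖x‖ := by
  have h := r_le_nrm (𝕜 := 𝕜) (r := 1 / 2) (G := G (stdB 𝕜)) (toL2 𝕜 x)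
  rw [sp_norm_def]
  unfold N
  linarith

lemma norm_toL2_symm_le (x : L2 𝕜) : ‖(toL2 𝕜).symm x‖ ≤ 2 * ‖x‖ := by
  rw [sp_norm_def, LinearEquiv.apply_symm_apply]
  exact nrm_le_mul (by norm_num) (by norm_num) (G_bd (stdB 𝕜)) x

/-- the identity is an isomorphism onto the Hilbert space -/
noncomputable def toL2C : Sp 𝕜 ≃L[𝕜] L2 𝕜 :=
  (toL2 𝕜).toContinuousLinearEquivOfBounds 2 2 (norm_toL2_le 𝕜) (norm_toL2_symm_le 𝕜)

lemma toL2C_apply (x : Sp 𝕜) : toL2C 𝕜 x = toL2 𝕜 x := rfl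
lemma toL2C_symm_apply (x : L2 𝕜) : (toL2C 𝕜).symm x = (toL2 𝕜).symm x := rfl

instance : CompleteSpace (Sp 𝕜) :=
  (completeSpace_congr (e := (toL2C 𝕜).toEquiv) (toL2C 𝕜).isUniformEmbedding).mpr inferInstance

/-- the contractive projections on the renormed space -/
noncomputable def U (n : ℕ) : Sp 𝕜 →L[𝕜] Sp 𝕜 :=
  ((toL2C 𝕜).symm : L2 𝕜 →L[𝕜] Sp 𝕜).comp ((P (stdB 𝕜) n).comp (toL2C 𝕜 : Sp 𝕜 →L[𝕜] L2 𝕜))

lemma U_apply (n : ℕ) (x : Sp 𝕜) : U 𝕜 n x = (toL2C 𝕜).symm (P (stdB 𝕜) n (toL2C 𝕜 x)) := rfl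

lemma U_idem (n : ℕ) : (U 𝕜 n).comp (U 𝕜 n) = U 𝕜 n := by
  ext x
  rw [ContinuousLinearMap.comp_apply, U_apply, U_apply, ContinuousLinearEquiv.apply_symm_apply, P_idem]

lemma U_norm (n : ℕ) : ‖U 𝕜 n‖ ≤ 1 := by
  refine ContinuousLinearMap.opNorm_le_bound _ zero_le_one fun x => ?_
  rw [one_mul, U_apply, sp_norm_def, sp_norm_def, toL2C_symm_apply, LinearEquiv.apply_symm_apply]
  exact P_contr (stdB 𝕜) n _

lemma U_tendsto (x : Sp 𝕜) : Tendsto (fun n => U 𝕜 n x) atTop (𝓝 x) := by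
  have h1 := P_tendsto (stdB 𝕜) (toL2C 𝕜 x)
  have h2 := ((toL2C 𝕜).symm.continuous.tendsto _).comp h1
  rw [ContinuousLinearEquiv.symm_apply_apply] at h2
  exact h2

lemma P_finite (n : ℕ) : FiniteDimensional 𝕜 (LinearMap.range (P (stdB 𝕜) n).toLinearMap) := by
  have hle : LinearMap.range (P (stdB 𝕜) n).toLinearMap ≤
      Submodule.span 𝕜 (insert (gv (stdB 𝕜) n) ((Finset.range n : Set ℕ).image (e (stdB 𝕜)))) := by
    rintro _ ⟨x, rfl⟩
    change P (stdB 𝕜) n x ∈ _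
    rw [P_apply]
    refine Submodule.add_mem _ (Submodule.sum_mem _ fun i hi => ?_) ?_
    · exact Submodule.smul_mem _ _ (Submodule.subset_span (Or.inr ⟨i, by simpa using hi, rfl⟩))
    · exact Submodule.smul_mem _ _ (Submodule.subset_span (Or.inl rfl))
  have hfin : (insert (gv (stdB 𝕜) n) ((Finset.range n : Set ℕ).image (e (stdB 𝕜)))).Finite :=
    ((Finset.finite_toSet _).image _).insert _
  have := FiniteDimensional.span_of_finite 𝕜 hfin
  exact Submodule.finiteDimensional_of_le hle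

lemma U_finite (n : ℕ) : FiniteDimensional 𝕜 (LinearMap.range (U 𝕜 n).toLinearMap) := by
  have h := P_finite 𝕜 n
  have hle : LinearMap.range (U 𝕜 n).toLinearMap ≤
      (LinearMap.range (P (stdB 𝕜) n).toLinearMap).map (toL2 𝕜).symm.toLinearMap := by
    rintro _ ⟨x, rfl⟩
    exact ⟨P (stdB 𝕜) n (toL2C 𝕜 x), ⟨_, rfl⟩, rfl⟩
  exact Submodule.finiteDimensional_of_le hle

/-- no nested sequence of contractive projections -/
theorem no_small {v : ℕ → Sp 𝕜 →L[𝕜] Sp 𝕜} (hV : ∀ n, (v n).comp (v n) = v n)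
    (hN : ∀ n, ‖v n‖ ≤ 1)
    (hnest : ∀ m n, m ≤ n → LinearMap.range (v m).toLinearMap ≤ LinearMap.range (v n).toLinearMap)
    (hconv : ∀ x, Tendsto (fun n => v n x) atTop (𝓝 x))
    (hfin : ∀ n, FiniteDimensional 𝕜 (LinearMap.range (v n).toLinearMap)) : False := by
  set V : ℕ → L2 𝕜 →ₗ[𝕜] L2 𝕜 := fun n =>
    (toL2 𝕜).toLinearMap ∘ₗ (v n).toLinearMap ∘ₗ (toL2 𝕜).symm.toLinearMap with hVdef
  have hVa : ∀ n x, V n x = toL2 𝕜 (v n ((toL2 𝕜).symm x)) := fun n x => rfl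
  have hidem : ∀ n x, v n (v n x) = v n x := fun n x => by
    have := congrArg (fun w => w x) (hV n)
    exact this
  have hfix : ∀ m n, m ≤ n → ∀ x, v n (v m x) = v m x := by
    intro m n hmn x
    obtain ⟨y, hy⟩ := hnest m n hmn ⟨x, rfl⟩
    have hy' : v n y = v m x := hy
    rw [← hy', hidem]
  refine no_nested (stdB 𝕜) (V := V) ?_ ?_ ?_ ?_ ?_
  · intro n x
    rw [hVa, hVa, LinearEquiv.symm_apply_apply, hidem]
  · intro n x
    have h1 := (v n).le_of_opNorm_le (hN n) ((toL2 𝕜).symm x)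
    rw [one_mul, sp_norm_def, sp_norm_def, LinearEquiv.apply_symm_apply] at h1
    exact h1
  · intro m n hmn x
    rw [hVa, hVa, LinearEquiv.symm_apply_apply, hfix m n hmn]
  · intro x
    have h1 := hconv ((toL2C 𝕜).symm x)
    have h2 := ((toL2C 𝕜).continuous.tendsto _).comp h1
    rw [ContinuousLinearEquiv.apply_symm_apply] at h2
    exact h2
  · intro n
    have h := hfin n
    have hle : LinearMap.range (V n) ≤
        (LinearMap.range (v n).toLinearMap).map (toL2 𝕜).toLinearMap := by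
      rintro _ ⟨x, rfl⟩
      exact ⟨v n ((toL2 𝕜).symm x), ⟨_, rfl⟩, rfl⟩
    exact Submodule.finiteDimensional_of_le hle

end Pool.Agent.Lib.Helper29.PiBasis
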